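import Pool.Agent.H519.Q7.Rec0
import Pool.Graph.R_pool_sql_team_seeded_3dad9d7b.NH57.BK.Alg
import Pool.Graph.R_pool_sql_team_seeded_3dad9d7b.NH57.BK.C8
import Pool.Graph.R_pool_sql_team_seeded_3dad9d7b.NH57.BK.FreA
import Pool.Graph.R_pool_sql_team_seeded_3dad9d7b.NH57.BK.FreB
import Pool.Graph.R_pool_sql_team_seeded_3dad9d7b.NH57.BK.H90
import Pool.Graph.R_pool_sql_team_seeded_3dad9d7b.NH57.BK.K8
import Pool.Graph.R_pool_sql_team_seeded_3dad9d7b.NH57.BK.Main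
import Pool.Graph.R_pool_sql_team_seeded_3dad9d7b.NH57.BK.Mod
import Pool.Graph.R_pool_sql_team_seeded_3dad9d7b.NH57.BK.Mq
import Pool.Graph.R_pool_sql_team_seeded_3dad9d7b.NH57.BK.Str
import Pool.Graph.R_pool_sql_team_seeded_3dad9d7b.NH57.BK.Val
import Pool.Graph.R_pool_sql_team_seeded_3dad9d7b.NH57.BL.AlgG
import Pool.Graph.R_pool_sql_team_seeded_3dad9d7b.NH57.BL.FreA8
import Pool.Graph.R_pool_sql_team_seeded_3dad9d7b.NH57.BL.FreAG
import Pool.Graph.R_pool_sql_team_seeded_3dad9d7b.NH57.BL.FreB8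
import Pool.Graph.R_pool_sql_team_seeded_3dad9d7b.NH57.BL.FreBG
import Pool.Graph.R_pool_sql_team_seeded_3dad9d7b.NH57.BL.MainG
import Pool.Graph.R_pool_sql_team_seeded_3dad9d7b.NH57.BL.Mod8
import Pool.Graph.R_pool_sql_team_seeded_3dad9d7b.NH57.BL.ModG
import Pool.Graph.R_pool_sql_team_seeded_3dad9d7b.NH57.BL.MqG
import Pool.Graph.R_pool_sql_team_seeded_3dad9d7b.NH57.BL.StrG
import Pool.Graph.R_pool_sql_team_seeded_3dad9d7b.NH57.BL.Val8
import Pool.Graph.R_pool_sql_team_seeded_3dad9d7b.NH57.BL.ValG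

/-!
# Project KW: the vanishing theorems of projects BK and BL of helper57, assembled
-/

set_option autoImplicit false

namespace Pool.Agent.H519.KW

open Pool.Agent.NH57

theorem van : BK.Van :=
  BK.t_MAIN BK.t_C8 BK.t_MOD BK.t_STR (BK.t_FREB (BK.t_FREA BK.t_H90 BK.t_VAL)) BK.t_ALG
    Pool.Agent.H519.Q7.rec_BK

theorem vanG : BH.VanG :=
  BH.t_MAING BK.t_C8 BH.t_MODG BG.t_RED8 BH.t_STRG (BG.t_FREB8 (BG.t_FREA8 BK.t_H90 BG.t_VAL8))
    (BH.t_FREBG (BH.t_FREAG BK.t_H90 BH.t_VALG)) BH.t_ALGG Pool.Agent.H519.Q7.rec_BK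
    Pool.Agent.H519.Q7.sup_BG

end Pool.Agent.H519.KW
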