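import Pool.Agent.H519.KW.Sym
import Pool.Graph.R_pool_sql_team_seeded_1e53cb71.Helper35K9.S8.Comb

/-!
# Project KW: the criterion on the analytic side

Let `S` be a finite set of primary primes with product `D = 1` modulo `8` and `M` the matrix
`M π ρ = (π / ρ)` (additive symbols, `π ≠ ρ`), `M π π = (π / √-7) + ∑ ρ ≠ π, (π / ρ)`. `GoodS` says that `M` is not
singular. Let `U = {√-7} ∪ S` (in `RR`).

1. `ad_of`: `pr`, `ne` from `Sym.lean`. `ng`: `ch U (-1) = qs sR (-1) * ∏ qs (fe q) (-1) = - (-1) ^ (∑ tO q) = -1`,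
as `D = 1` modulo `4` gives `∑ q ∈ S, tO q = 0` (`tO` is a homomorphism: `nn` modulo `4`). `lc`: `lc U` is by
definition a sum over `U` (see S8/Ind2.lean) of the `cb`: `cb sR = 1` and `∑ cb (fe q) = 0` by `S_SUPO`
(`∏ em e3 q = 1` modulo `8`, each `em e3 q` in `1, 3, 5, 7`). `lm`: by `Pool.Agent.Helper35K9.S8.lamd8` (Comb.lean)
`lam zb aa U = (La aa zb U sR).det` up to the order of the arguments, and `Lin.detA` (LinA.lean) with `j₀ = sR`:
* `hz`: `zb sR = 1`, `∑ zb (fe q) = 0` as `∏ em e6 q = 1` modulo `8`;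
* `hcol`: by reciprocity `aa k l + aa l k = bb k * bb l` for `k ≠ l` in `U` (`S_REC`; for `l = sR`:
  `qs π (-s7) = qs π s7 + qs π (-1) = qs s7 π + tO π`), so the sum is `bb k (bb k + ∑ bb) = 0` as `∑_U bb = 1`;
* `hker`: for `v sR = 0` the row `k = fe π` is `∑ ρ, (Mᵀ) π ρ v ρ`, with
  `(Mᵀ) π ρ = (ρ / π)`, `(Mᵀ) π π = (π / √-7) + ∑ ρ ≠ π, (π / ρ)`; `M` nonsingular implies `Mᵀ` nonsingular
  (`Matrix.exists_mulVec_eq_zero_iff`, `Matrix.det_transpose`).
2. `det_of`: `Lin.detM` with the same `hz`, `hker`, `hb`, `hc` and `hrec`; `hgd`: let `g = gO 0`, `d = dO 0`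
(Gal2.lean) i.e. `g = cb + bb`, `d = zb + bb` on `S` by `S_SUPO`. The system `M v + e g = 0`, `d . v = 0` has only
the zero solution (`aa 0 0 = 0`), so the bordered matrix and its transpose are nonsingular. Let `Mᵀ v = d`. If
`g . v = 0` then `(v, 1)` is in the kernel of the transpose `[[Mᵀ, d], [gᵀ, 0]]`, contradiction. So `g . v = 1`; and
`v sR = 0`.
-/

set_option autoImplicit false

open scoped Classical

namespace Pool.Agent.H519.KW

open Pool.Agent.R384 (OO om s7 em)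
open Pool.Agent.Y698 (RR aR bR)
open Pool.Agent.NH57.BK (Pp tO GoodS S_REC)
open Pool.Agent.NH57.BG (e6 e3 S_SUPO)
open Pool.Agent.NH57.BH (GoodX)
open Pool.Agent.Helper35K9.S8 (O1 bb zb cb Mu)
open Pool.Agent.Helper35K9.S8.V (Ad)
open Pool.Agent.Y690.AW (aa)

open Pool.Agent.Helper35K9.S8.Lin (Rw)
open Pool.Agent.Helper35K9.S8.V (lc)

lemma fe_injective : Function.Injective (fe : OO → RR) := fe.injective

/-- sums over the set of primes -/
lemma sum_UU {S : Finset OO} (hS : ∀ q ∈ S, Pp q) (f : RR → ZMod 2) :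
    ∑ l ∈ UU S, f l = f sR + ∑ q ∈ S, f (fe q) := by
  unfold UU
  rw [Finset.sum_insert (sR_notMem hS), Finset.sum_image fun _ _ _ _ h => fe_injective h]

lemma mem_UU {S : Finset OO} {x : RR} : x ∈ UU S ↔ x = sR ∨ ∃ q ∈ S, fe q = x := by
  unfold UU
  rw [Finset.mem_insert, Finset.mem_image]

lemma sR_mem (S : Finset OO) : sR ∈ UU S := mem_UU.mpr (Or.inl rfl)

lemma fe_memU {S : Finset OO} {q : OO} (h : q ∈ S) : fe q ∈ UU S := mem_UU.mpr (Or.inr ⟨q, h, rfl⟩)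

lemma fe_ne {S : Finset OO} (hS : ∀ q ∈ S, Pp q) {q : OO} (h : q ∈ S) : fe q ≠ sR := by
  intro h1
  exact sR_notMem hS (h1 ▸ Finset.mem_image_of_mem _ h)

/-- sums over the set of primes without one prime -/
lemma sum_erase_fe {S : Finset OO} (hS : ∀ q ∈ S, Pp q) {π : OO} (hπ : π ∈ S) (f : RR → ZMod 2) :
    ∑ l ∈ (UU S).erase (fe π), f l = f sR + ∑ q ∈ S.erase π, f (fe q) := by
  have h1 := Finset.add_sum_erase (UU S) f (fe_memU hπ)
  have h2 := Finset.add_sum_erase S (fun q => f (fe q)) hπ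
  rw [sum_UU hS, ← h2] at h1
  linear_combination h1

/-- the value modulo eight at `3` is odd -/
lemma prod_six (hsup : S_SUPO) {S : Finset OO} (hS : ∀ q ∈ S, Pp q) :
    (em e6 (∏ q ∈ S, q) = 1 ∧ ∑ q ∈ S, Pool.Agent.R384.qs q (-om) = 0) ∨
    (em e6 (∏ q ∈ S, q) = 5 ∧ ∑ q ∈ S, Pool.Agent.R384.qs q (-om) = 1) := by
  induction S using Finset.induction_on with
  | empty =>
    left
    rw [Finset.prod_empty, Finset.sum_empty, map_one]
    exact ⟨rfl, rfl⟩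
  | insert q S hq ih =>
    have h1 := ih fun r hr => hS r (Finset.mem_insert_of_mem hr)
    have h2 := (hsup q (hS q (Finset.mem_insert_self q S))).1
    rw [Finset.prod_insert hq, Finset.sum_insert hq, map_mul]
    rcases h1 with ⟨h1, h3⟩ | ⟨h1, h3⟩ <;> rcases h2 with ⟨h2, h4⟩ | ⟨h2, h4⟩ <;>
      rw [h1, h2, h3, h4] <;> decide

/-- the values modulo eight at `3` -/
lemma prod_three (hsup : S_SUPO) {S : Finset OO} (hS : ∀ q ∈ S, Pp q) :
    ((em e3 (∏ q ∈ S, q) = 1 ∨ em e3 (∏ q ∈ S, q) = 7) ∧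
      ∑ q ∈ S, Pool.Agent.R384.qs q (-(1 - om)) = 0) ∨
    ((em e3 (∏ q ∈ S, q) = 3 ∨ em e3 (∏ q ∈ S, q) = 5) ∧
      ∑ q ∈ S, Pool.Agent.R384.qs q (-(1 - om)) = 1) := by
  induction S using Finset.induction_on with
  | empty =>
    left
    rw [Finset.prod_empty, Finset.sum_empty, map_one]
    exact ⟨Or.inl rfl, rfl⟩
  | insert q S hq ih =>
    have h1 := ih fun r hr => hS r (Finset.mem_insert_of_mem hr)
    have h2 := (hsup q (hS q (Finset.mem_insert_self q S))).2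
    rw [Finset.prod_insert hq, Finset.sum_insert hq, map_mul]
    rcases h1 with ⟨h1 | h1, h3⟩ | ⟨h1 | h1, h3⟩ <;> rcases h2 with ⟨h2 | h2, h4⟩ | ⟨h2 | h2, h4⟩ <;>
      rw [h1, h2, h3, h4] <;> decide

/-- the norm modulo eight -/
lemma nn_mod (q : OO) : ((Pool.Agent.R384.nn q : ℤ) : ZMod 8) = em e6 q * em e3 q := by
  rw [Pool.Agent.R384.em_apply, Pool.Agent.R384.em_apply]
  unfold Pool.Agent.R384.nn
  push_cast
  have h9 : (9 : ZMod 8) = 1 := by decide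
  have h18 : (18 : ZMod 8) = 2 := by decide
  linear_combination (-(q.re : ZMod 8) * q.im) * h9 - (q.im : ZMod 8) ^ 2 * h18

/-- the norm is `1` or `3` modulo four -/
lemma tO_mul (hsup : S_SUPO) {q : OO} (h : Pp q) :
    (((Pool.Agent.R384.nn q : ℤ) : ZMod 4) = 1 ∧ tO q = 0) ∨
    (((Pool.Agent.R384.nn q : ℤ) : ZMod 4) = 3 ∧ tO q = 1) := by
  have h1 := nn_mod q
  have h2 : ((Pool.Agent.R384.nn q : ℤ) : ZMod 8) = 1 ∨ ((Pool.Agent.R384.nn q : ℤ) : ZMod 8) = 3 ∨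
      ((Pool.Agent.R384.nn q : ℤ) : ZMod 8) = 5 ∨ ((Pool.Agent.R384.nn q : ℤ) : ZMod 8) = 7 := by
    rcases (hsup q h).1 with ⟨h3, -⟩ | ⟨h3, -⟩ <;>
      rcases (hsup q h).2 with ⟨h4 | h4, -⟩ | ⟨h4 | h4, -⟩ <;> rw [h1, h3, h4] <;> decide
  have h3 : Pool.Agent.R384.nn q % 4 = 1 ∨ Pool.Agent.R384.nn q % 4 = 3 := by
    rcases h2 with h2 | h2 | h2 | h2
    · have h4 : ((Pool.Agent.R384.nn q : ℤ) : ZMod 8) = ((1 : ℤ) : ZMod 8) := by rw [h2]; rfl
      rw [ZMod.intCast_eq_intCast_iff] at h4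
      unfold Int.ModEq at h4
      push_cast at h4
      omega
    · have h4 : ((Pool.Agent.R384.nn q : ℤ) : ZMod 8) = ((3 : ℤ) : ZMod 8) := by rw [h2]; rfl
      rw [ZMod.intCast_eq_intCast_iff] at h4
      unfold Int.ModEq at h4
      push_cast at h4
      omega
    · have h4 : ((Pool.Agent.R384.nn q : ℤ) : ZMod 8) = ((5 : ℤ) : ZMod 8) := by rw [h2]; rfl
      rw [ZMod.intCast_eq_intCast_iff] at h4
      unfold Int.ModEq at h4
      push_cast at h4
      omega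
    · have h4 : ((Pool.Agent.R384.nn q : ℤ) : ZMod 8) = ((7 : ℤ) : ZMod 8) := by rw [h2]; rfl
      rw [ZMod.intCast_eq_intCast_iff] at h4
      unfold Int.ModEq at h4
      push_cast at h4
      omega
  rcases h3 with h3 | h3
  · left
    constructor
    · rw [← Int.cast_one, ZMod.intCast_eq_intCast_iff]
      unfold Int.ModEq
      push_cast
      omega
    · unfold tO
      rw [if_neg (by omega)]
  · right
    constructor
    · have : (3 : ZMod 4) = ((3 : ℤ) : ZMod 4) := rfl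
      rw [this, ZMod.intCast_eq_intCast_iff]
      unfold Int.ModEq
      push_cast
      omega
    · unfold tO
      rw [if_pos h3]

lemma prod_nn (hsup : S_SUPO) {S : Finset OO} (hS : ∀ q ∈ S, Pp q) :
    (((Pool.Agent.R384.nn (∏ q ∈ S, q) : ℤ) : ZMod 4) = 1 ∧ ∑ q ∈ S, tO q = 0) ∨
    (((Pool.Agent.R384.nn (∏ q ∈ S, q) : ℤ) : ZMod 4) = 3 ∧ ∑ q ∈ S, tO q = 1) := by
  induction S using Finset.induction_on with
  | empty =>
    left
    rw [Finset.prod_empty, Finset.sum_empty]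
    exact ⟨by simp [Pool.Agent.R384.nn, QuadraticAlgebra.re_one, QuadraticAlgebra.im_one], rfl⟩
  | insert q S hq ih =>
    have h1 := ih fun r hr => hS r (Finset.mem_insert_of_mem hr)
    have h2 := tO_mul hsup (hS q (Finset.mem_insert_self q S))
    rw [Finset.prod_insert hq, Finset.sum_insert hq, Pool.Agent.R384.nn_mul, Int.cast_mul]
    rcases h1 with ⟨h1, h3⟩ | ⟨h1, h3⟩ <;> rcases h2 with ⟨h2, h4⟩ | ⟨h2, h4⟩ <;>
      rw [h1, h2, h3, h4] <;> decide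

lemma em_of_dvd {w : ZMod 8} (hw : w ^ 2 = w - 2) {D : OO} (h8 : (8 : OO) ∣ D - 1) :
    em hw D = 1 := by
  obtain ⟨d, hd⟩ := h8
  have h1 : D = 1 + 8 * d := by linear_combination hd
  rw [h1, map_add, map_one, map_mul]
  have h2 : em hw (8 : OO) = 0 := by
    rw [map_ofNat]
    decide
  rw [h2, zero_mul, add_zero]

lemma nn_of_dvd {D : OO} (h8 : (8 : OO) ∣ D - 1) :
    ((Pool.Agent.R384.nn D : ℤ) : ZMod 4) = 1 := by
  have h1 := nn_mod D
  rw [em_of_dvd e6 h8, em_of_dvd e3 h8, mul_one] at h1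
  have h2 : ((Pool.Agent.R384.nn D : ℤ) : ZMod 8) = ((1 : ℤ) : ZMod 8) := by rw [h1]; rfl
  rw [ZMod.intCast_eq_intCast_iff] at h2
  unfold Int.ModEq at h2
  rw [← Int.cast_one, ZMod.intCast_eq_intCast_iff]
  unfold Int.ModEq
  push_cast at h2 ⊢
  omega

/-- the sum of the labels at `ω` -/
lemma sum_om (hsup : S_SUPO) {S : Finset OO} (hS : ∀ q ∈ S, Pp q)
    (h8 : (8 : OO) ∣ ∏ q ∈ S, q - 1) : ∑ q ∈ S, Pool.Agent.R384.qs q (-om) = 0 := by
  rcases prod_six hsup hS with ⟨-, h⟩ | ⟨h, -⟩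
  · exact h
  · rw [em_of_dvd e6 h8] at h
    exact absurd h (by decide)

lemma sum_om' (hsup : S_SUPO) {S : Finset OO} (hS : ∀ q ∈ S, Pp q)
    (h8 : (8 : OO) ∣ ∏ q ∈ S, q - 1) : ∑ q ∈ S, Pool.Agent.R384.qs q (-(1 - om)) = 0 := by
  rcases prod_three hsup hS with ⟨-, h⟩ | ⟨h, -⟩
  · exact h
  · rw [em_of_dvd e3 h8] at h
    exact absurd h (by decide)

lemma sum_tO (hsup : S_SUPO) {S : Finset OO} (hS : ∀ q ∈ S, Pp q)
    (h8 : (8 : OO) ∣ ∏ q ∈ S, q - 1) : ∑ q ∈ S, tO q = 0 := by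
  rcases prod_nn hsup hS with ⟨-, h⟩ | ⟨h, -⟩
  · exact h
  · rw [nn_of_dvd h8] at h
    exact absurd h (by decide)

/-- the label at `ω` -/
lemma zb_fe' (hsup : S_SUPO) {q : OO} (h : Pp q) : zb (fe q) = Pool.Agent.R384.qs q (-om) := by
  rw [zb_fe h]
  rcases (hsup q h).1 with ⟨h1, h2⟩ | ⟨h1, h2⟩
  · rw [h1, h2, if_neg (by decide)]
  · rw [h1, h2, if_pos rfl]

lemma sum_zb (hsup : S_SUPO) {S : Finset OO} (hS : ∀ q ∈ S, Pp q)
    (h8 : (8 : OO) ∣ ∏ q ∈ S, q - 1) : ∑ p ∈ UU S, zb p = 1 := by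
  rw [sum_UU hS, zb_sR, Finset.sum_congr rfl fun q hq => zb_fe' hsup (hS q hq),
    sum_om hsup hS h8, add_zero]

lemma sum_cb (hsup : S_SUPO) {S : Finset OO} (hS : ∀ q ∈ S, Pp q)
    (h8 : (8 : OO) ∣ ∏ q ∈ S, q - 1) : ∑ p ∈ UU S, cb p = 1 := by
  rw [sum_UU hS, cb_sR, Finset.sum_congr rfl fun q _ => cb_fe q, sum_om' hsup hS h8, add_zero]

lemma sum_bb (hsup : S_SUPO) {S : Finset OO} (hS : ∀ q ∈ S, Pp q)
    (h8 : (8 : OO) ∣ ∏ q ∈ S, q - 1) : ∑ p ∈ UU S, bb p = 1 := by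
  rw [sum_UU hS, bb_sR, Finset.sum_congr rfl fun q hq => bb_fe (hS q hq), sum_tO hsup hS h8,
    add_zero]

/-- a primary prime does not divide `√-7` -/
lemma not_dvd_s7 {q : OO} (h : Pp q) : ¬ q ∣ s7 := by
  rintro ⟨c, hc⟩
  have h1 := congrArg Pool.Agent.R384.nn hc
  rw [Pool.Agent.R384.nn_mul] at h1
  have h7 : Pool.Agent.R384.nn s7 = 7 := by decide
  rw [h7] at h1
  have h2 : Pool.Agent.R384.nn q ≠ 1 := fun h3 =>
    h.prime.not_isUnit (Pool.Agent.R384.unit_iff.mpr h3)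
  have h3 := Pool.Agent.R384.nn_nonneg q
  have h4 := Pool.Agent.R384.nn_nonneg c
  have h5 : (Pool.Agent.R384.nn q).natAbs ∣ 7 := by
    refine ⟨(Pool.Agent.R384.nn c).natAbs, ?_⟩
    rw [← Int.natAbs_mul, ← h1]
    rfl
  have h6 : (Pool.Agent.R384.nn q).natAbs = 7 := by
    rcases (Nat.dvd_prime (by norm_num : Nat.Prime 7)).mp h5 with h8 | h8
    · omega
    · exact h8
  have h8 : Pool.Agent.R384.nn c = 1 := by
    have h9 : Pool.Agent.R384.nn q = 7 := by omega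
    rw [h9] at h1
    linarith
  obtain ⟨u, hu⟩ := Pool.Agent.R384.unit_iff.mpr h8
  apply h.sev
  refine ⟨(↑u⁻¹ : OO), ?_⟩
  rw [hc, mul_assoc, ← hu, Units.mul_inv, mul_one]

/-- reciprocity -/
lemma rec_sR (hrec : S_REC) {π : OO} (h : Pp π) :
    aa sR (fe π) + aa (fe π) sR = bb sR * bb (fe π) := by
  have h1 : Pool.Agent.R384.qs π (-s7) = tO π + Pool.Agent.R384.qs s7 π := by
    have h2 : (-s7 : OO) = (-1) * s7 := by ring
    rw [h2, qs_add h, (hrec.2 π h).2, (hrec.2 π h).1]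
    · intro h3
      exact h.prime.not_isUnit (isUnit_of_dvd_unit h3 isUnit_one.neg)
    · exact fun h3 => not_dvd_s7 h h3
  rw [aa_sR_fe, aa_fe_sR, bb_sR, bb_fe h, h1, one_mul, add_assoc, Pool.Agent.Helper35K9.S8.Lin.z2, add_zero]

lemma rec_UU (hrec : S_REC) {S : Finset OO} (hS : ∀ q ∈ S, Pp q) :
    ∀ p ∈ UU S, ∀ q ∈ UU S, p ≠ q → aa p q + aa q p = bb p * bb q := by
  intro p hp q hq hne
  rcases mem_UU.mp hp with rfl | ⟨π, hπ, rfl⟩
  · rcases mem_UU.mp hq with rfl | ⟨ρ, hρ, rfl⟩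
    · exact absurd rfl hne
    · exact rec_sR hrec (hS ρ hρ)
  · rcases mem_UU.mp hq with rfl | ⟨ρ, hρ, rfl⟩
    · rw [add_comm, mul_comm]
      exact rec_sR hrec (hS π hπ)
    · rw [aa_fe, aa_fe, bb_fe (hS π hπ), bb_fe (hS ρ hρ), add_comm]
      exact hrec.1 π ρ (hS π hπ) (hS ρ hρ) fun h => hne (h ▸ rfl)

lemma col_UU (hrec : S_REC) (hsup : S_SUPO) {S : Finset OO} (hS : ∀ q ∈ S, Pp q)
    (h8 : (8 : OO) ∣ ∏ q ∈ S, q - 1) :
    ∀ k ∈ UU S, ∑ l ∈ (UU S).erase k, (aa k l + aa l k) = 0 := by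
  intro k hk
  rw [Finset.sum_congr rfl fun l hl => rec_UU hrec hS k hk l (Finset.mem_of_mem_erase hl)
    (Finset.ne_of_mem_erase hl).symm, ← Finset.mul_sum]
  have h8 : bb k + ∑ l ∈ (UU S).erase k, bb l = 1 := by
    rw [Finset.add_sum_erase _ _ hk, sum_bb hsup hS h8]
  have h9 : ∀ x y : ZMod 2, x + y = 1 → x * y = 0 := by decide
  exact h9 _ _ h8

/-- the matrix of the symbols -/
noncomputable def Ms (S : Finset OO) : Matrix S S (ZMod 2) := Matrix.of fun π ρ =>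
  if π = ρ then Pool.Agent.R384.qs s7 π + ∑ σ ∈ S.erase π, Pool.Agent.R384.qs σ π
  else Pool.Agent.R384.qs ρ π

lemma Ms_mulVec (S : Finset OO) (v : OO → ZMod 2) (π : S) :
    (Ms S).mulVec (fun ρ => v ρ) π = Pool.Agent.R384.qs s7 π * v π +
      ∑ ρ ∈ S, Pool.Agent.R384.qs ρ π * (v π + v ρ) := by
  have e1 : (Ms S).mulVec (fun ρ => v ρ) π = ∑ ρ ∈ S, (if (π : OO) = ρ then
      Pool.Agent.R384.qs s7 π + ∑ σ ∈ S.erase π, Pool.Agent.R384.qs σ π
      else Pool.Agent.R384.qs ρ π) * v ρ := by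
    rw [← Finset.sum_coe_sort S fun ρ : OO => (if (π : OO) = ρ then
      Pool.Agent.R384.qs s7 π + ∑ σ ∈ S.erase π, Pool.Agent.R384.qs σ π
      else Pool.Agent.R384.qs ρ π) * v ρ]
    simp only [Matrix.mulVec, dotProduct, Ms, Matrix.of_apply]
    refine Finset.sum_congr rfl fun ρ _ => ?_
    congr 1
    by_cases h : π = ρ
    · rw [if_pos h, if_pos (congrArg Subtype.val h)]
    · rw [if_neg h, if_neg fun h1 => h (Subtype.ext h1)]
  rw [e1, ← Finset.add_sum_erase _ _ π.2, if_pos rfl,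
    ← Finset.add_sum_erase S (fun ρ => Pool.Agent.R384.qs ρ π * (v π + v ρ)) π.2, Pool.Agent.Helper35K9.S8.Lin.z2, mul_zero,
    zero_add]
  have e2 : ∑ ρ ∈ S.erase (π : OO), (if (π : OO) = ρ then
      Pool.Agent.R384.qs s7 π + ∑ σ ∈ S.erase π, Pool.Agent.R384.qs σ π
      else Pool.Agent.R384.qs ρ π) * v ρ = ∑ ρ ∈ S.erase (π : OO), Pool.Agent.R384.qs ρ π * v ρ :=
    Finset.sum_congr rfl fun ρ hρ => by rw [if_neg (Finset.ne_of_mem_erase hρ).symm]
  rw [e2, add_mul, add_assoc, Finset.sum_mul, ← Finset.sum_add_distrib]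
  congr 1
  exact Finset.sum_congr rfl fun ρ _ => by ring

lemma Ms_transpose (S : Finset OO) (v : OO → ZMod 2) (π : S) :
    (Ms S).transpose.mulVec (fun ρ => v ρ) π = v π * (Pool.Agent.R384.qs s7 π +
      ∑ ρ ∈ S.erase π, Pool.Agent.R384.qs ρ π) + ∑ ρ ∈ S.erase π, v ρ * Pool.Agent.R384.qs π ρ := by
  have e1 : (Ms S).transpose.mulVec (fun ρ => v ρ) π = ∑ ρ ∈ S, (if (π : OO) = ρ then
      Pool.Agent.R384.qs s7 π + ∑ σ ∈ S.erase π, Pool.Agent.R384.qs σ π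
      else Pool.Agent.R384.qs π ρ) * v ρ := by
    rw [← Finset.sum_coe_sort S fun ρ : OO => (if (π : OO) = ρ then
      Pool.Agent.R384.qs s7 π + ∑ σ ∈ S.erase π, Pool.Agent.R384.qs σ π
      else Pool.Agent.R384.qs π ρ) * v ρ]
    simp only [Matrix.mulVec, dotProduct, Ms, Matrix.of_apply, Matrix.transpose_apply]
    refine Finset.sum_congr rfl fun ρ _ => ?_
    congr 1
    by_cases h : ρ = π
    · rw [if_pos h, if_pos (congrArg Subtype.val h).symm, h]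
    · rw [if_neg h, if_neg fun h1 => h (Subtype.ext h1.symm)]
  rw [e1, ← Finset.add_sum_erase _ _ π.2, if_pos rfl, mul_comm]
  congr 1
  exact Finset.sum_congr rfl fun ρ hρ => by rw [if_neg (Finset.ne_of_mem_erase hρ).symm, mul_comm]

/-- the rows of the Laplace matrix are those of the transpose -/
lemma Rw_fe {S : Finset OO} (hS : ∀ q ∈ S, Pp q) (v : RR → ZMod 2) (h0 : v sR = 0) (π : S) :
    Rw aa (UU S) v (fe π) = (Ms S).transpose.mulVec (fun ρ => v (fe ρ)) π := by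
  rw [Ms_transpose S (fun ρ => v (fe ρ)) π]
  unfold Rw
  rw [sum_erase_fe hS π.2, sum_erase_fe hS π.2, h0, zero_mul, zero_add, aa_fe_sR]
  congr 1
  · congr 2
    exact Finset.sum_congr rfl fun ρ _ => aa_fe _ _
  · exact Finset.sum_congr rfl fun ρ _ => by rw [aa_fe]

lemma det_Ms {S : Finset OO} (hS : GoodS S) : (Ms S).det ≠ 0 := by
  intro hdet
  obtain ⟨v, hv0, hv⟩ := Matrix.exists_mulVec_eq_zero_iff.mpr hdet
  apply hv0
  set w : OO → ZMod 2 := Pool.Agent.Helper35K9.S8.Lin.ex S v with hw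
  have hwv : v = fun p : S => w p := funext fun p => (Pool.Agent.Helper35K9.S8.Lin.ex_coe S v p).symm
  have h1 := hS.reg w (fun π hπ => by
    rw [← Ms_mulVec S w ⟨π, hπ⟩, ← hwv, hv]
    rfl)
  rw [hwv]
  funext p
  exact h1 p p.2

lemma ker_UU {S : Finset OO} (hS : GoodS S) (v : RR → ZMod 2) (h0 : v sR = 0)
    (h : ∀ k ∈ UU S, k ≠ sR → Rw aa (UU S) v k = 0) : ∀ k ∈ UU S, v k = 0 := by
  have hdet : (Ms S).transpose.det ≠ 0 := by
    rw [Matrix.det_transpose]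
    exact det_Ms hS
  have h1 : (fun ρ : S => v (fe ρ)) = 0 := by
    by_contra hne
    apply hdet
    rw [← Matrix.exists_mulVec_eq_zero_iff]
    refine ⟨_, hne, ?_⟩
    funext π
    rw [← Rw_fe hS.pp v h0 π]
    exact h _ (fe_memU π.2) (fe_ne hS.pp π.2)
  intro k hk
  rcases mem_UU.mp hk with rfl | ⟨π, hπ, rfl⟩
  · exact h0
  · exact congrFun h1 ⟨π, hπ⟩

/-- the product of the signs -/
lemma prod_sign (S : Finset OO) (t : OO → ZMod 2) :
    (∏ q ∈ S, (if t q = 0 then 1 else -1 : ℤ)) = if ∑ q ∈ S, t q = 0 then 1 else -1 := by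
  induction S using Finset.induction_on with
  | empty => rfl
  | insert q S hq ih =>
    rw [Finset.prod_insert hq, Finset.sum_insert hq, ih]
    generalize ∑ q ∈ S, t q = x
    generalize t q = y
    revert x y
    decide

theorem ad_of (hrec : S_REC) (hsup : S_SUPO) {S : Finset OO} (hS : GoodS S)
    (h8 : (8 : OO) ∣ ∏ q ∈ S, q - 1) : Ad (UU S) where
  pr p hp := by
    rcases mem_UU.mp hp with rfl | ⟨π, hπ, rfl⟩
    · exact ⟨prime_sR, o1_sR⟩
    · exact ⟨fe_prime (hS.pp π hπ).prime, o1_fe (hS.pp π hπ)⟩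
  ne := ⟨sR, sR_mem S⟩
  ng := by
    unfold Pool.Agent.Y690.AW.ch UU
    rw [Finset.prod_insert (sR_notMem hS.pp), Finset.prod_image fun _ _ _ _ h => fe_injective h,
      qs_sR_neg, Finset.prod_congr rfl fun q hq => qs_fe_neg (hS.pp q hq) (hrec.2 q (hS.pp q hq)).2,
      prod_sign, sum_tO hsup hS.pp h8, if_pos rfl, mul_one]
  lm := by
    have h1 := Pool.Agent.Helper35K9.S8.lamd8 RR aa zb (UU S) ⟨sR, sR_mem S⟩
    rw [h1]
    exact Pool.Agent.Helper35K9.S8.Lin.detA aa zb (UU S) ⟨sR, sR_mem S⟩ (fun k hk _ => col_UU hrec hsup hS.pp h8 k hk)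
      (sum_zb hsup hS.pp h8) (fun v h0 h => ker_UU hS v h0 h)
  lc := sum_cb hsup hS.pp h8

/-- the bordered matrix -/
noncomputable def Bs (S : Finset OO) : Matrix (S ⊕ Unit) (S ⊕ Unit) (ZMod 2) :=
  Matrix.fromBlocks (Ms S) (Matrix.of fun π _ => Pool.Agent.NH57.BH.gO 0 π)
    (Matrix.of fun _ ρ => Pool.Agent.NH57.BH.dO 0 ρ) 0

lemma det_Bs {S : Finset OO} (hS : GoodX 0 0 S) : (Bs S).det ≠ 0 := by
  intro hdet
  obtain ⟨v, hv0, hv⟩ := Matrix.exists_mulVec_eq_zero_iff.mpr hdet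
  apply hv0
  set w : OO → ZMod 2 := Pool.Agent.Helper35K9.S8.Lin.ex S (fun p => v (Sum.inl p)) with hw
  have hwv : v ∘ Sum.inl = fun p : S => w p :=
    funext fun p => (Pool.Agent.Helper35K9.S8.Lin.ex_coe S (fun p => v (Sum.inl p)) p).symm
  rw [Bs, Matrix.fromBlocks_mulVec] at hv
  have h1 := hS.reg w (v (Sum.inr ())) (fun π hπ => by
    have h2 := congrFun hv (Sum.inl ⟨π, hπ⟩)
    simp only [Sum.elim_inl, Pi.add_apply, Pi.zero_apply] at h2
    rw [hwv, Ms_mulVec] at h2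
    refine Eq.trans ?_ h2
    congr 1
    simp only [Matrix.mulVec, dotProduct, Matrix.of_apply, Function.comp_apply,
      Finset.univ_unique, Finset.sum_singleton, PUnit.default_eq_unit]
    rw [mul_comm]) (by
    have h2 := congrFun hv (Sum.inr ())
    simp only [Sum.elim_inr, Pi.add_apply, Pi.zero_apply] at h2
    rw [hwv, Matrix.zero_mulVec, Pi.zero_apply, add_zero] at h2
    have h3 : Pool.Agent.NH57.BH.aa 0 0 = 0 := by
      unfold Pool.Agent.NH57.BH.aa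
      rw [if_pos ⟨rfl, rfl⟩]
    rw [h3, zero_mul, zero_add]
    refine Eq.trans ?_ h2
    simp only [Matrix.mulVec, dotProduct, Matrix.of_apply]
    exact (Finset.sum_coe_sort S fun ρ => Pool.Agent.NH57.BH.dO 0 ρ * w ρ).symm)
  funext z
  rcases z with p | ⟨⟩
  · have := congrFun hwv p
    simp only [Function.comp_apply] at this
    rw [this]
    exact h1.1 p p.2
  · exact h1.2

lemma gd_UU (hsup : S_SUPO) {S : Finset OO} (hS : GoodX 0 0 S) (v : RR → ZMod 2) (h0 : v sR = 0)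
    (h : ∀ k ∈ UU S, k ≠ sR → Rw aa (UU S) v k = bb k + zb k) :
    ∑ k ∈ UU S, (bb k + cb k) * v k = 1 := by
  have hpp := hS.gs.pp
  have h01 : ∀ x : ZMod 2, x ≠ 0 → x = 1 := by decide
  refine h01 _ fun hz => ?_
  have hdet : (Bs S).transpose.det ≠ 0 := by
    rw [Matrix.det_transpose]
    exact det_Bs hS
  apply hdet
  rw [← Matrix.exists_mulVec_eq_zero_iff]
  refine ⟨Sum.elim (fun ρ : S => v (fe ρ)) (fun _ => 1), ?_, ?_⟩
  · intro h1
    exact one_ne_zero (congrFun h1 (Sum.inr ()))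
  · rw [Bs, Matrix.fromBlocks_transpose, Matrix.fromBlocks_mulVec]
    funext z
    rcases z with π | ⟨⟩
    · simp only [Sum.elim_inl, Pi.add_apply, Pi.zero_apply, Sum.elim_comp_inl, Sum.elim_comp_inr]
      rw [← Rw_fe hpp v h0 π, h _ (fe_memU π.2) (fe_ne hpp π.2), bb_fe (hpp π π.2),
        zb_fe' hsup (hpp π π.2)]
      simp only [Matrix.mulVec, dotProduct, Matrix.of_apply, Matrix.transpose_apply,
        Finset.univ_unique, Finset.sum_singleton, mul_one]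
      unfold Pool.Agent.NH57.BH.dO
      generalize tO (π : OO) = x
      generalize Pool.Agent.R384.qs (π : OO) (-om) = y
      revert x y
      decide
    · simp only [Sum.elim_inr, Pi.add_apply, Pi.zero_apply, Sum.elim_comp_inl, Sum.elim_comp_inr]
      rw [sum_UU hpp, h0, mul_zero, zero_add] at hz
      rw [Matrix.transpose_zero, Matrix.zero_mulVec, Pi.zero_apply, add_zero]
      refine Eq.trans ?_ hz
      simp only [Matrix.mulVec, dotProduct, Matrix.of_apply, Matrix.transpose_apply]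
      rw [← Finset.sum_coe_sort S fun q => (bb (fe q) + cb (fe q)) * v (fe q)]
      refine Finset.sum_congr rfl fun q _ => ?_
      rw [bb_fe (hpp q q.2), cb_fe]
      unfold Pool.Agent.NH57.BH.gO
      ring

theorem det_of (hrec : S_REC) (hsup : S_SUPO) {S : Finset OO} (hS : GoodX 0 0 S)
    (h8 : (8 : OO) ∣ ∏ q ∈ S, q - 1) : (Mu aa bb zb cb (UU S)).det = 1 :=
  Pool.Agent.Helper35K9.S8.Lin.detM aa bb zb cb (UU S) ⟨sR, sR_mem S⟩ (rec_UU hrec hS.gs.pp) (sum_bb hsup hS.gs.pp h8)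
    (sum_zb hsup hS.gs.pp h8) (sum_cb hsup hS.gs.pp h8) (fun v h0 h => ker_UU hS.gs v h0 h)
    (fun v h0 h => gd_UU hsup hS v h0 h)

end Pool.Agent.H519.KW
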