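import Pool.Agent.H519.KW.Fd

/-!
# Project KW: the density of the good twists (task KW-DN, by helper225)

From `Pool.Agent.H519.Q7.dens : S_FINJ` (file Q7/All.lean, statement in Q7/Stm.lean) and
`Pool.Agent.H519.Q7.Fin.count_D` (Q7/Fin.lean).

* `Primary q ↔ PP q`; `sym = s` additively (`Q7.s_eq_qs`, `Q7.eO_eq`, `Q7.dO_eq`, `Q7.gO_eq`, `Q7.rec_BK`, in Rec.lean,
  Rec0.lean: `sym π (-1) = tO π`), so `Regular S ↔ Tab 1 0 S` and, as
  `sym π (1 - ω) = gO π + tO π`, `sym π ω = dO π + tO π`, `Bordered S ↔ Tab 0 1 S` (for `S` a set of primary primes).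
* `Adm D → Q7.PS D`; `Good D ↔ Tab 1 0 (PD D)`, `VeryGood D ↔ Tab 1 0 (PD D) ∧ Tab 0 1 (PD D)` (`PS_prod`, `PS.prod`).
* For `InClass M d`: `m_T = M ∏_{i ∈ T} d i` is primary; `Q7.Low.decomp` : `m_T = a_T b ^ 2`, `PS a_T`, `prim b`;
  `a_T = 1` modulo `8` (`fc (b * b) = 0`). `W T = PD a_T`, `W₀ = PD (M ∏ i, d i)`. `W` is injective: if
  `a_T = a_T'` then `∏_{i ∈ T Δ T'} d i` is a square (times a square it is a square; `ℤ[ω]` is factorial).
* `D` prime to `M ∏ i, d i` iff no `u ∈ W₀` divides it. Then `M D ∏_{i ∈ T} d i = (D a_T) b ^ 2` with `D a_T` squarefree,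
  in the class, `PD (D a_T) = PD D ∪ W T`; and if `D' z ^ 2 = (D a_T) b ^ 2` with `D'` in the class then `D' = D a_T`
  (squarefree primary elements in the same class modulo squares are equal).
* So for the `D` of the class prime to `M ∏ i, d i`: `Pair Good (M D) d ↔ ∀ T, Tab 1 0 (PD D ∪ W T)`, and the same for
  `VeryGood`; `S_FINJ` with `I = Finset (Fin n)` (`Fintype.card = 2 ^ n`) and `count_D` give `dens_one`, `dens_two`.
* `dens_ext`: if `Pair P M d` then `Pair P (M D) d` implies `Pair P M (add d D)` for all `D ≠ 1` of the class prime to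
  `M ∏ d i` (a product of some of the `d_i` and `D` is not a square, as a prime divides it exactly once), and conversely;
  so the counts differ by at most one and the denominators tend to infinity (`Q7.Low.low`).
-/

set_option autoImplicit false

open scoped Classical

namespace Pool.Agent.H519.KW.Dn

open Filter Topology
open Pool.Agent.H519.KW.Fd

theorem om_sq_dvd (z : OK) : om ^ 2 ∣ z ↔ (z.re + 2 * z.im) % 4 = 0 := by
  have e : (om ^ 2 : OK) = ⟨-2, 1⟩ := by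
    rw [pow_two]
    ext
    · rw [QuadraticAlgebra.re_mul]; simp [om]
    · rw [QuadraticAlgebra.im_mul]; simp [om]
  rw [e]
  constructor
  · rintro ⟨t, rfl⟩
    have h1 : ((⟨-2, 1⟩ : OK) * t).re = -2 * t.re - 2 * t.im := by
      rw [QuadraticAlgebra.re_mul]; ring
    have h2 : ((⟨-2, 1⟩ : OK) * t).im = t.re - t.im := by
      rw [QuadraticAlgebra.im_mul]; ring
    rw [h1, h2]
    omega
  · intro h
    obtain ⟨k, hk⟩ : ∃ k : ℤ, z.re = -2 * z.im + 4 * k := ⟨(z.re + 2 * z.im) / 4, by omega⟩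
    refine ⟨⟨z.im - k, -k⟩, ?_⟩
    ext
    · rw [QuadraticAlgebra.re_mul]
      linarith
    · rw [QuadraticAlgebra.im_mul]
      linarith

theorem primary_iff (q : OK) : Primary q ↔ Pool.Agent.H519.Q7.PP q := by
  have h1 := om_sq_dvd (q - 1)
  have h2 := Pool.Agent.H519.Q7.one_om_dvd q
  have h3 := Pool.Agent.H519.Q7.s7_dvd_iff q
  have e1 : (q - 1 : OK).re = q.re - 1 := rfl
  have e2 : (q - 1 : OK).im = q.im := by
    show q.im - 0 = q.im
    ring
  rw [e1, e2] at h1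
  constructor
  · rintro ⟨a, b, c, d⟩
    refine ⟨a, ?_, ?_, ?_⟩
    · have := h1.1 b
      unfold Pool.Agent.H519.Q7.c6
      omega
    · have : ¬ Pool.Agent.H519.Q7.c3 q % 2 = 0 := fun h => c (h2.2 h)
      omega
    · exact fun h => d (h3.2 h)
  · rintro ⟨a, b⟩
    refine ⟨a, ?_, ?_, ?_⟩
    · rw [h1]
      have := b.six
      unfold Pool.Agent.H519.Q7.c6 at this
      omega
    · intro h
      have h4 := h2.1 h
      have := b.three
      omega
    · intro h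
      exact b.seven (h3.1 h)

theorem sym_eq (q x : OK) : sym q x = Pool.Agent.H519.Q7.s q x :=
  (Pool.Agent.H519.Q7.s_eq_qs q x).symm

theorem sym_s7 {q : OK} (h : Pool.Agent.H519.Q7.PP q) : sym s7 q = Pool.Agent.H519.Q7.eO q :=
  (Pool.Agent.H519.Q7.eO_eq h).symm

theorem s_neg_one {q : OK} (h : Pool.Agent.H519.Q7.PP q) :
    Pool.Agent.H519.Q7.s q (-1) = Pool.Agent.H519.Q7.tO q := by
  rw [Pool.Agent.H519.Q7.s_eq_qs, Pool.Agent.H519.Q7.tO_eq h]
  exact (Pool.Agent.H519.Q7.rec_BK.2 q (Pool.Agent.H519.Q7.prim_iff_Pp.1 h)).2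

theorem s_neg {q x : OK} (h : Pool.Agent.H519.Q7.PP q) (hx : ¬ q ∣ x) :
    Pool.Agent.H519.Q7.s q x = Pool.Agent.H519.Q7.s q (-x) + Pool.Agent.H519.Q7.tO q := by
  have h1 : ¬ q ∣ (-1 : OK) := fun h1 => h.pr.not_isUnit (isUnit_of_dvd_unit h1 isUnit_one.neg)
  have h2 : ¬ q ∣ -x := fun h2 => hx ((dvd_neg).1 h2)
  have h3 := Pool.Agent.H519.Q7.s_mul h h2 h1
  rw [mul_neg_one, neg_neg, s_neg_one h] at h3
  exact h3

theorem sym_om {q : OK} (h : Pool.Agent.H519.Q7.PP q) :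
    sym q om = Pool.Agent.H519.Q7.dO q + Pool.Agent.H519.Q7.tO q := by
  have h1 : ¬ q ∣ (om : OK) :=
    Pool.Agent.H519.Q7.Rec0.ndvd_om (Pool.Agent.H519.Q7.prim_iff_Pp.1 h)
  rw [sym_eq, s_neg h h1, Pool.Agent.H519.Q7.s_eq_qs, Pool.Agent.H519.Q7.dO_eq h]
  rfl

theorem sym_om' {q : OK} (h : Pool.Agent.H519.Q7.PP q) :
    sym q (1 - om) = Pool.Agent.H519.Q7.gO q + Pool.Agent.H519.Q7.tO q := by
  have h1 : ¬ q ∣ (1 - om : OK) :=
    Pool.Agent.H519.Q7.Rec0.ndvd_om' (Pool.Agent.H519.Q7.prim_iff_Pp.1 h)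
  rw [sym_eq, s_neg h h1, Pool.Agent.H519.Q7.s_eq_qs, Pool.Agent.H519.Q7.gO_eq h]
  rfl

theorem row_eq {S : Finset OK} (hS : ∀ q ∈ S, Primary q) (v : OK → ZMod 2) {π : OK} (hπ : π ∈ S) :
    row S v π = Pool.Agent.H519.Q7.eO π * v π +
      ∑ ρ ∈ S, Pool.Agent.H519.Q7.s ρ π * (v π + v ρ) := by
  unfold row
  rw [sym_s7 ((primary_iff π).1 (hS π hπ))]
  simp only [sym_eq]

theorem regular_iff {S : Finset OK} (hS : ∀ q ∈ S, Primary q) :
    Regular S ↔ Pool.Agent.H519.Q7.Tab 1 0 S := by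
  unfold Regular Pool.Agent.H519.Q7.Tab Pool.Agent.NH57.BL.GdS Pool.Agent.NH57.BL.SolS
  constructor
  · intro h v e hve
    obtain ⟨h1, h2⟩ := hve
    have he : e = 0 := by simpa using h2
    subst he
    refine ⟨h v fun π hπ => ?_, rfl⟩
    rw [row_eq hS v hπ]
    simpa using h1 π hπ
  · intro h v hv
    refine (h v 0 ⟨fun π hπ => ?_, by simp⟩).1
    have := hv π hπ
    rw [row_eq hS v hπ] at this
    simpa using this

theorem bordered_iff {S : Finset OK} (hS : ∀ q ∈ S, Primary q) :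
    Bordered S ↔ Pool.Agent.H519.Q7.Tab 0 1 S := by
  unfold Bordered Pool.Agent.H519.Q7.Tab Pool.Agent.NH57.BL.GdS Pool.Agent.NH57.BL.SolS
  have e1 : ∀ (v : OK → ZMod 2) (e : ZMod 2), ∀ π ∈ S,
      (row S v π + e * sym π (1 - om) = Pool.Agent.H519.Q7.eO π * v π +
        ∑ ρ ∈ S, Pool.Agent.H519.Q7.s ρ π * (v π + v ρ) +
        e * (Pool.Agent.H519.Q7.gO π + Pool.Agent.H519.Q7.tO π)) := by
    intro v e π hπ
    rw [row_eq hS v hπ, sym_om' ((primary_iff π).1 (hS π hπ))]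
  have e2 : ∀ v : OK → ZMod 2, ∑ ρ ∈ S, sym ρ om * v ρ =
      ∑ ρ ∈ S, (Pool.Agent.H519.Q7.dO ρ + Pool.Agent.H519.Q7.tO ρ) * v ρ := by
    intro v
    refine Finset.sum_congr rfl fun ρ hρ => ?_
    rw [sym_om ((primary_iff ρ).1 (hS ρ hρ))]
  constructor
  · intro h v e hve
    obtain ⟨h1, h2⟩ := hve
    refine h v e (fun π hπ => ?_) ?_
    · rw [e1 v e π hπ]
      exact h1 π hπ
    · rw [e2]
      simpa using h2
  · intro h v e h1 h2
    refine h v e ⟨fun π hπ => ?_, ?_⟩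
    · rw [← e1 v e π hπ]
      exact h1 π hπ
    · rw [e2] at h2
      rw [h2]
      simp

/-! ### the class -/

theorem Adm.ps {D : OK} (h : Adm D) : Pool.Agent.H519.Q7.PS D :=
  ⟨Pool.Agent.H519.Q7.Fin.prim_of_eight h.2.1 h.2.2, h.1⟩

theorem Adm.k0 {D : OK} (h : Adm D) :
    Pool.Agent.H519.Q7.κ₀ (Pool.Agent.H519.Q7.fc D) :=
  (Pool.Agent.H519.Q7.eight_iff (Adm.ps h).prm).1 h.2.1

theorem adm_of {D : OK} (h : Pool.Agent.H519.Q7.PS D)
    (h' : Pool.Agent.H519.Q7.κ₀ (Pool.Agent.H519.Q7.fc D)) : Adm D := by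
  refine ⟨h.sqf, (Pool.Agent.H519.Q7.eight_iff h.prm).2 h', fun h1 => ?_⟩
  exact h.prm.seven ((Pool.Agent.H519.Q7.s7_dvd_iff D).1 h1)

theorem good_iff {D : OK} (h : Pool.Agent.H519.Q7.PS D) :
    Good D ↔ Pool.Agent.H519.Q7.Tab 1 0 (Pool.Agent.H519.Q7.PD D) := by
  have hS : ∀ q ∈ Pool.Agent.H519.Q7.PD D, Primary q := fun q hq =>
    (primary_iff q).2 ((Pool.Agent.H519.Q7.mem_PD h.ne).1 hq).1
  constructor
  · rintro ⟨S, h1, h2, h3⟩
    have h4 := (Pool.Agent.H519.Q7.PS_prod fun q hq => (primary_iff q).1 (h1 q hq)).2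
    rw [h2] at h4
    rw [h4]
    exact (regular_iff h1).1 h3
  · intro h1
    exact ⟨_, hS, h.prod, (regular_iff hS).2 h1⟩

theorem vgood_iff {D : OK} (h : Pool.Agent.H519.Q7.PS D) :
    VeryGood D ↔ Pool.Agent.H519.Q7.Tab 1 0 (Pool.Agent.H519.Q7.PD D) ∧
      Pool.Agent.H519.Q7.Tab 0 1 (Pool.Agent.H519.Q7.PD D) := by
  have hS : ∀ q ∈ Pool.Agent.H519.Q7.PD D, Primary q := fun q hq =>
    (primary_iff q).2 ((Pool.Agent.H519.Q7.mem_PD h.ne).1 hq).1
  constructor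
  · rintro ⟨S, h1, h2, h3, h3'⟩
    have h4 := (Pool.Agent.H519.Q7.PS_prod fun q hq => (primary_iff q).1 (h1 q hq)).2
    rw [h2] at h4
    rw [h4]
    exact ⟨(regular_iff h1).1 h3, (bordered_iff h1).1 h3'⟩
  · intro h1
    exact ⟨_, hS, h.prod, (regular_iff hS).2 h1.1, (bordered_iff hS).2 h1.2⟩

/-! ### squares -/

theorem dvd_of_sq {a b : OK} (h : a ^ 2 ∣ b ^ 2) : a ∣ b :=
  (IsIntegrallyClosed.pow_dvd_pow_iff two_ne_zero).1 h

theorem isSquare_of_mul {a z w : OK} (hz : z ≠ 0) (h : a * z ^ 2 = w ^ 2) : IsSquare a := by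
  obtain ⟨c, hc⟩ := dvd_of_sq (a := z) (b := w) ⟨a, by rw [← h]; ring⟩
  refine ⟨c, ?_⟩
  have h1 : z ^ 2 ≠ 0 := pow_ne_zero 2 hz
  apply mul_right_cancel₀ h1
  rw [h, hc]
  ring

theorem PD_le_of_sq {x y c : OK} (hx : Pool.Agent.H519.Q7.PS x) (hy : Pool.Agent.H519.Q7.PS y)
    (h : x * y = c ^ 2) : Pool.Agent.H519.Q7.PD x ⊆ Pool.Agent.H519.Q7.PD y := by
  intro π hπ
  rw [Pool.Agent.H519.Q7.mem_PD hx.ne] at hπ
  rw [Pool.Agent.H519.Q7.mem_PD hy.ne]
  obtain ⟨h1, x', rfl⟩ := hπ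
  refine ⟨h1, ?_⟩
  have h2 : π ∣ c := by
    apply h1.pr.dvd_of_dvd_pow (n := 2)
    rw [← h, mul_assoc]
    exact dvd_mul_right _ _
  obtain ⟨c', rfl⟩ := h2
  have h3 : x' * y = π * c' ^ 2 := by
    apply mul_left_cancel₀ h1.pr.ne_zero
    linear_combination h
  have h4 : π ∣ x' * y := ⟨_, h3⟩
  rcases h1.pr.dvd_or_dvd h4 with h5 | h5
  · exfalso
    exact h1.pr.not_isUnit (hx.sqf π (mul_dvd_mul_left π h5))
  · exact h5

theorem eq_of_sq {x y z w : OK} (hx : Pool.Agent.H519.Q7.PS x) (hy : Pool.Agent.H519.Q7.PS y)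
    (hz : z ≠ 0) (h : x * z ^ 2 = y * w ^ 2) : x = y := by
  have h1 : (x * y) * w ^ 2 = (x * z) ^ 2 := by linear_combination (-x) * h
  have hw : w ≠ 0 := by
    rintro rfl
    have h2 : x * z ^ 2 = 0 := by rw [h]; ring
    exact mul_ne_zero hx.ne (pow_ne_zero 2 hz) h2
  obtain ⟨c, hc⟩ := isSquare_of_mul hw h1
  have hc' : x * y = c ^ 2 := by rw [hc]; ring
  have h3 := (PD_le_of_sq hx hy hc').antisymm (PD_le_of_sq hy hx (by rw [mul_comm]; exact hc'))
  rw [← hx.prod, h3, hy.prod]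

/-! ### the products -/

theorem k0_add {x y : Pool.Agent.H519.Q7.Lb} (hx : Pool.Agent.H519.Q7.κ₀ x)
    (hy : Pool.Agent.H519.Q7.κ₀ y) : Pool.Agent.H519.Q7.κ₀ (x + y) := by
  obtain ⟨a, b, c⟩ := hx
  obtain ⟨a', b', c'⟩ := hy
  refine ⟨?_, ?_, ?_⟩
  · show x.1 + y.1 = 0
    rw [a, a', add_zero]
  · show x.2.1 + y.2.1 = 0
    rw [b, b', add_zero]
  · show x.2.2.1 + y.2.2.1 = 0
    rw [c, c', add_zero]

theorem prod_class {n : ℕ} {d : Fin n → OK} (hd : ∀ i, Adm (d i)) (T : Finset (Fin n)) :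
    Pool.Agent.H519.Q7.prim (∏ i ∈ T, d i) ∧
      Pool.Agent.H519.Q7.κ₀ (Pool.Agent.H519.Q7.fc (∏ i ∈ T, d i)) := by
  induction T using Finset.induction_on with
  | empty =>
    rw [Finset.prod_empty]
    refine ⟨Pool.Agent.H519.Q7.prim_one, ?_⟩
    rw [Pool.Agent.H519.Q7.fc_one]
    exact ⟨rfl, rfl, rfl⟩
  | insert a T ha ih =>
    rw [Finset.prod_insert ha]
    refine ⟨Pool.Agent.H519.Q7.prim_mul (Adm.ps (hd a)).prm ih.1, ?_⟩
    rw [Pool.Agent.H519.Q7.fc_mul (Adm.ps (hd a)).prm ih.1]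
    exact k0_add (Adm.k0 (hd a)) ih.2

theorem mprod_class {n : ℕ} {M : OK} {d : Fin n → OK} (h : InClass M d) (T : Finset (Fin n)) :
    Pool.Agent.H519.Q7.prim (M * ∏ i ∈ T, d i) ∧
      Pool.Agent.H519.Q7.κ₀ (Pool.Agent.H519.Q7.fc (M * ∏ i ∈ T, d i)) := by
  have h1 := prod_class h.2.1 T
  refine ⟨Pool.Agent.H519.Q7.prim_mul (Adm.ps h.1).prm h1.1, ?_⟩
  rw [Pool.Agent.H519.Q7.fc_mul (Adm.ps h.1).prm h1.1]
  exact k0_add (Adm.k0 h.1) h1.2

theorem exists_dec {n : ℕ} {M : OK} {d : Fin n → OK} (h : InClass M d) (T : Finset (Fin n)) :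
    ∃ a b : OK, M * ∏ i ∈ T, d i = a * b ^ 2 ∧ Adm a ∧ b ≠ 0 := by
  obtain ⟨h1, h2⟩ := mprod_class h T
  obtain ⟨a, b, h3, h4, h5⟩ := Pool.Agent.H519.Q7.Low.decomp h1
  refine ⟨a, b, h3, adm_of h4 ?_, Pool.Agent.H519.Q7.prim_ne_zero h5⟩
  rw [h3, Pool.Agent.H519.Q7.fc_mul h4.prm (Pool.Agent.H519.Q7.prim_pow h5 2), pow_two,
    Pool.Agent.H519.Q7.fc_mul h5 h5] at h2
  have h6 : Pool.Agent.H519.Q7.fc b + Pool.Agent.H519.Q7.fc b = 0 := by
    generalize Pool.Agent.H519.Q7.fc b = x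
    revert x
    decide
  rw [h6, add_zero] at h2
  exact h2

theorem mprod_dvd {n : ℕ} (M : OK) (d : Fin n → OK) (T : Finset (Fin n)) :
    (M * ∏ i ∈ T, d i) ∣ M * ∏ i, d i :=
  mul_dvd_mul_left M (Finset.prod_dvd_prod_of_subset T Finset.univ d (Finset.subset_univ T))

theorem pair_iff {n : ℕ} {M : OK} {d : Fin n → OK} (h : InClass M d)
    {a b : Finset (Fin n) → OK} (hab : ∀ T, M * ∏ i ∈ T, d i = a T * b T ^ 2)
    (ha : ∀ T, Adm (a T)) (hb : ∀ T, b T ≠ 0) {P : OK → Prop} {R : Finset OK → Prop}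
    (hPR : ∀ D, Pool.Agent.H519.Q7.PS D → (P D ↔ R (Pool.Agent.H519.Q7.PD D)))
    {D : OK} (hD : Adm D) (hc : IsCoprime D (M * ∏ i, d i)) :
    Pair P (M * D) d ↔
      ∀ T, R (Pool.Agent.H519.Q7.PD D ∪ Pool.Agent.H519.Q7.PD (a T)) := by
  have hE : ∀ T, Pool.Agent.H519.Q7.PS (D * a T) := by
    intro T
    rw [Pool.Agent.H519.Q7.PS.mul_iff (Adm.ps hD).prm (Adm.ps (ha T)).prm]
    refine ⟨Adm.ps hD, Adm.ps (ha T), hc.of_isCoprime_of_dvd_right ?_⟩
    refine dvd_trans ?_ (mprod_dvd M d T)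
    rw [hab T]
    exact dvd_mul_right _ _
  have hE' : ∀ T, Adm (D * a T) := by
    intro T
    refine adm_of (hE T) ?_
    rw [Pool.Agent.H519.Q7.fc_mul (Adm.ps hD).prm (Adm.ps (ha T)).prm]
    exact k0_add (Adm.k0 hD) (Adm.k0 (ha T))
  have hpd : ∀ T, Pool.Agent.H519.Q7.PD (D * a T) =
      Pool.Agent.H519.Q7.PD D ∪ Pool.Agent.H519.Q7.PD (a T) := fun T =>
    Pool.Agent.H519.Q7.PD_mul (Adm.ps hD).ne (Adm.ps (ha T)).ne
  have he : ∀ T, M * D * ∏ i ∈ T, d i = (D * a T) * b T ^ 2 := by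
    intro T
    linear_combination D * hab T
  constructor
  · intro hp T
    obtain ⟨D', z, hz, hD', hP', e⟩ := hp.2 T
    rw [he T] at e
    have h1 : D' = D * a T := eq_of_sq (Adm.ps hD') (hE T) hz e.symm
    rw [← hpd T, ← hPR _ (hE T), ← h1]
    exact hP'
  · intro hR
    refine ⟨h.2.2, fun T => ⟨D * a T, b T, hb T, hE' T, ?_, he T⟩⟩
    rw [hPR _ (hE T), hpd T]
    exact hR T

theorem inj_W {n : ℕ} {M : OK} {d : Fin n → OK} (h : InClass M d)
    {a b : Finset (Fin n) → OK} (hab : ∀ T, M * ∏ i ∈ T, d i = a T * b T ^ 2)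
    (ha : ∀ T, Adm (a T)) :
    Function.Injective fun T => Pool.Agent.H519.Q7.PD (a T) := by
  intro T T' hTT
  have hTT' : Pool.Agent.H519.Q7.PD (a T) = Pool.Agent.H519.Q7.PD (a T') := hTT
  have haa : a T = a T' := by
    rw [← (Adm.ps (ha T)).prod, hTT', (Adm.ps (ha T')).prod]
  by_contra hne
  have hU : ((T \ T') ∪ (T' \ T)).Nonempty := by
    rw [Finset.nonempty_iff_ne_empty]
    intro h1
    rw [Finset.union_eq_empty, Finset.sdiff_eq_empty_iff_subset,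
      Finset.sdiff_eq_empty_iff_subset] at h1
    exact hne (h1.1.antisymm h1.2)
  apply h.2.2 _ hU
  have hdisj : Disjoint (T \ T') (T' \ T) := disjoint_sdiff_sdiff
  rw [Finset.prod_union hdisj]
  have hI : M * ∏ i ∈ T ∩ T', d i ≠ 0 :=
    Pool.Agent.H519.Q7.prim_ne_zero (mprod_class h (T ∩ T')).1
  refine isSquare_of_mul (z := M * ∏ i ∈ T ∩ T', d i) (w := a T * b T * b T') hI ?_
  have e1 := Finset.prod_inter_mul_prod_sdiff T T' d
  have e2 := Finset.prod_inter_mul_prod_sdiff T' T d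
  rw [Finset.inter_comm] at e2
  have e3 := hab T
  have e4 := hab T'
  rw [← e1] at e3
  rw [← e2, ← haa] at e4
  calc _ = (M * ((∏ i ∈ T ∩ T', d i) * ∏ i ∈ T \ T', d i)) *
        (M * ((∏ i ∈ T ∩ T', d i) * ∏ i ∈ T' \ T, d i)) := by ring
    _ = _ := by rw [e3, e4]; ring

theorem cop_iff {D m : OK} (hm : Pool.Agent.H519.Q7.prim m) :
    IsCoprime D m ↔ ∀ u ∈ Pool.Agent.H519.Q7.PD m, ¬ u ∣ D := by
  have hm0 := Pool.Agent.H519.Q7.prim_ne_zero hm
  constructor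
  · intro h u hu hd
    rw [Pool.Agent.H519.Q7.mem_PD hm0] at hu
    exact hu.1.pr.not_isUnit (h.isUnit_of_dvd' hd hu.2)
  · intro h
    rw [← isRelPrime_iff_isCoprime]
    intro x hx hx'
    by_contra hu
    have hx0 : x ≠ 0 := by
      rintro rfl
      exact hm0 (zero_dvd_iff.1 hx')
    obtain ⟨ρ, hρ, hρx⟩ := WfDvdMonoid.exists_irreducible_factor hu hx0
    have hρ' : Prime ρ := irreducible_iff_prime.1 hρ
    obtain ⟨π, hπ, hass⟩ := Pool.Agent.H519.Q7.exists_PP hρ'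
      (Pool.Agent.H519.Q7.not_dvd_mo hρ' (hρx.trans hx') hm)
    exact h π ((Pool.Agent.H519.Q7.mem_PD hm0).2 ⟨hπ, hass.dvd.trans (hρx.trans hx')⟩)
      (hass.dvd.trans (hρx.trans hx))

theorem norm_iff (D : OK) (X : ℕ) : norm D ≤ X ↔ Pool.Agent.H519.Q7.nrm D ≤ X := by
  have h : (Pool.Agent.H519.Q7.nrm D : ℤ) = norm D := Pool.Agent.H519.Q7.nrm_cast D
  rw [← h, Nat.cast_le]

theorem count_eq {m : OK} (hm : Pool.Agent.H519.Q7.prim m) {P : OK → Prop}
    {R : Finset OK → Prop}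
    (hPR : ∀ D, Adm D → IsCoprime D m → (P D ↔ R (Pool.Agent.H519.Q7.PD D))) (X : ℕ) :
    count m P X = ((Pool.Agent.H519.Q7.SS X).filter fun S =>
      Pool.Agent.H519.Q7.Kc Pool.Agent.H519.Q7.κ₀ (Pool.Agent.H519.Q7.PD m) S ∧ R S).card := by
  have hm0 := Pool.Agent.H519.Q7.prim_ne_zero hm
  rw [← Pool.Agent.H519.Q7.Fin.count_D X (Pool.Agent.H519.Q7.PD m)
    (fun u hu => ((Pool.Agent.H519.Q7.mem_PD hm0).1 hu).1) R]
  unfold count
  apply Nat.subtype_card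
  intro D
  rw [Finset.mem_filter, Pool.Agent.H519.Q7.mem_ZB, norm_iff]
  constructor
  · rintro ⟨h1, h2, h3, h4, h5, h6⟩
    have hA : Adm D := ⟨h2, h3, h4⟩
    have hc := (cop_iff hm).2 h5
    exact ⟨hA, h1, hc, (hPR D hA hc).2 h6⟩
  · rintro ⟨hA, h1, hc, h6⟩
    exact ⟨h1, hA.1, hA.2.1, hA.2.2, (cop_iff hm).1 hc, (hPR D hA hc).1 h6⟩

theorem count_true {m : OK} (hm : Pool.Agent.H519.Q7.prim m) (X : ℕ) :
    count m (fun _ => True) X = ((Pool.Agent.H519.Q7.SS X).filter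
      (Pool.Agent.H519.Q7.Kc Pool.Agent.H519.Q7.κ₀ (Pool.Agent.H519.Q7.PD m))).card := by
  rw [count_eq hm (R := fun _ => True) (fun _ _ _ => Iff.rfl) X]
  simp only [and_true]

theorem PP_of_PD {m u : OK} (hm : Pool.Agent.H519.Q7.prim m) (hu : u ∈ Pool.Agent.H519.Q7.PD m) :
    Pool.Agent.H519.Q7.PP u :=
  ((Pool.Agent.H519.Q7.mem_PD (Pool.Agent.H519.Q7.prim_ne_zero hm)).1 hu).1

/-- the data for the density theorem -/
theorem data {n : ℕ} {M : OK} {d : Fin n → OK} (h : InClass M d) :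
    ∃ a b : Finset (Fin n) → OK, (∀ T, M * ∏ i ∈ T, d i = a T * b T ^ 2) ∧ (∀ T, Adm (a T)) ∧
      (∀ T, b T ≠ 0) ∧
      (∀ T, Pool.Agent.H519.Q7.PD (a T) ⊆ Pool.Agent.H519.Q7.PD (M * ∏ i, d i)) ∧
      (Function.Injective fun T => Pool.Agent.H519.Q7.PD (a T)) ∧
      (∀ T, Pool.Agent.H519.Q7.κ₀ (∑ u ∈ Pool.Agent.H519.Q7.PD (a T),
        Pool.Agent.H519.Q7.fc u)) := by
  choose a b hab ha hb using exists_dec h
  refine ⟨a, b, hab, ha, hb, fun T => ?_, inj_W h hab ha, fun T => ?_⟩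
  · apply Pool.Agent.H519.Q7.PD_subset
      (Pool.Agent.H519.Q7.prim_ne_zero (mprod_class h Finset.univ).1)
    refine dvd_trans ?_ (mprod_dvd M d T)
    rw [hab T]
    exact dvd_mul_right _ _
  · have h1 : Pool.Agent.H519.Q7.fc (∏ u ∈ Pool.Agent.H519.Q7.PD (a T), u) =
        ∑ u ∈ Pool.Agent.H519.Q7.PD (a T), Pool.Agent.H519.Q7.fc u :=
      Pool.Agent.H519.Q7.fc_prod fun π hπ => (PP_of_PD (Adm.ps (ha T)).prm hπ).prm
    rw [← h1, (Adm.ps (ha T)).prod]
    exact Adm.k0 (ha T)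

theorem dens_one {n : ℕ} {M : OK} {d : Fin n → OK} (h : InClass M d) :
    Density (M * ∏ i, d i) (fun D => Pair Good (M * D) d) (Pool.Agent.NH57.BL.c2 ^ 2 ^ n) := by
  obtain ⟨a, b, hab, ha, hb, hsub, hinj, hk⟩ := data h
  have hm := (mprod_class h Finset.univ).1
  have h1 := (Pool.Agent.H519.Q7.dens (Finset (Fin n)) (fun T => Pool.Agent.H519.Q7.PD (a T))
    (Pool.Agent.H519.Q7.PD (M * ∏ i, d i)) (fun u hu => PP_of_PD hm hu) hsub hinj hk).1
  rw [Fintype.card_finset, Fintype.card_fin] at h1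
  unfold Density
  refine h1.congr fun X => ?_
  have h2 := count_eq hm (P := fun D => Pair Good (M * D) d) (R := fun S => ∀ T,
    Pool.Agent.H519.Q7.Tab 1 0 (S ∪ Pool.Agent.H519.Q7.PD (a T)))
    (fun D hD hc => pair_iff h hab ha hb (R := Pool.Agent.H519.Q7.Tab 1 0)
      (fun D hD => good_iff hD) hD hc) X
  rw [count_true hm, h2]
  congr!

theorem dens_two {n : ℕ} {M : OK} {d : Fin n → OK} (h : InClass M d) :
    Density (M * ∏ i, d i) (fun D => Pair VeryGood (M * D) d)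
      ((Pool.Agent.NH57.BL.c2 / 2) ^ 2 ^ n) := by
  obtain ⟨a, b, hab, ha, hb, hsub, hinj, hk⟩ := data h
  have hm := (mprod_class h Finset.univ).1
  have h1 := (Pool.Agent.H519.Q7.dens (Finset (Fin n)) (fun T => Pool.Agent.H519.Q7.PD (a T))
    (Pool.Agent.H519.Q7.PD (M * ∏ i, d i)) (fun u hu => PP_of_PD hm hu) hsub hinj hk).2
  rw [Fintype.card_finset, Fintype.card_fin] at h1
  unfold Density
  refine h1.congr fun X => ?_
  have h2 := count_eq hm (P := fun D => Pair VeryGood (M * D) d) (R := fun S => ∀ T,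
    (Pool.Agent.H519.Q7.Tab 1 0 (S ∪ Pool.Agent.H519.Q7.PD (a T)) ∧
      Pool.Agent.H519.Q7.Tab 0 1 (S ∪ Pool.Agent.H519.Q7.PD (a T))))
    (fun D hD hc => pair_iff h hab ha hb
      (R := fun S => Pool.Agent.H519.Q7.Tab 1 0 S ∧ Pool.Agent.H519.Q7.Tab 0 1 S)
      (fun D hD => vgood_iff hD) hD hc) X
  rw [count_true hm, h2]
  congr!

/-! ### the extension -/

theorem prod_castSucc {n : ℕ} (d : Fin n → OK) (D : OK) (T : Finset (Fin n)) :
    ∏ i ∈ T.map Fin.castSuccEmb, add d D i = ∏ i ∈ T, d i := by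
  rw [Finset.prod_map]
  refine Finset.prod_congr rfl fun i _ => ?_
  unfold add
  exact Fin.snoc_castSucc (α := fun _ => OK) D d i

theorem last_notMem {n : ℕ} (T : Finset (Fin n)) : Fin.last n ∉ T.map Fin.castSuccEmb := by
  intro h
  rw [Finset.mem_map] at h
  obtain ⟨i, _, hi⟩ := h
  exact (Fin.castSucc_lt_last i).ne hi

theorem prod_insert_last {n : ℕ} (d : Fin n → OK) (D : OK) (T : Finset (Fin n)) :
    ∏ i ∈ insert (Fin.last n) (T.map Fin.castSuccEmb), add d D i = D * ∏ i ∈ T, d i := by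
  rw [Finset.prod_insert (last_notMem T), prod_castSucc]
  congr 1
  unfold add
  exact Fin.snoc_last (α := fun _ => OK) D d

theorem cases_last {n : ℕ} (T : Finset (Fin (n + 1))) : ∃ T' : Finset (Fin n),
    T = T'.map Fin.castSuccEmb ∨ T = insert (Fin.last n) (T'.map Fin.castSuccEmb) := by
  refine ⟨Finset.univ.filter fun i => Fin.castSucc i ∈ T, ?_⟩
  have key : ∀ i : Fin n, Fin.castSucc i ∈ (Finset.univ.filter fun i : Fin n =>
      Fin.castSucc i ∈ T).map Fin.castSuccEmb ↔ Fin.castSucc i ∈ T := by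
    intro i
    rw [Finset.mem_map]
    constructor
    · rintro ⟨j, hj, hji⟩
      have : j = i := Fin.castSucc_injective n hji
      subst this
      exact (Finset.mem_filter.1 hj).2
    · intro h
      exact ⟨i, Finset.mem_filter.2 ⟨Finset.mem_univ _, h⟩, rfl⟩
  by_cases hl : Fin.last n ∈ T
  · right
    ext i
    rw [Finset.mem_insert]
    rcases Fin.eq_castSucc_or_eq_last i with ⟨j, rfl⟩ | rfl
    · rw [key]
      constructor
      · exact fun h => Or.inr h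
      · rintro (h | h)
        · exact absurd h (Fin.castSucc_lt_last j).ne
        · exact h
    · exact ⟨fun _ => Or.inl rfl, fun _ => hl⟩
  · left
    ext i
    rcases Fin.eq_castSucc_or_eq_last i with ⟨j, rfl⟩ | rfl
    · rw [key]
    · exact ⟨fun h => absurd h hl, fun h => absurd h (last_notMem _)⟩

theorem ind_add {n : ℕ} {M : OK} {d : Fin n → OK} (h : InClass M d) {D : OK} (hD : Adm D)
    (hc : IsCoprime D (M * ∏ i, d i)) (h1 : D ≠ 1) : Ind (add d D) := by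
  intro T hT
  obtain ⟨T', rfl | rfl⟩ := cases_last T
  · rw [prod_castSucc]
    exact h.2.2 T' (Finset.map_nonempty.1 hT)
  · rw [prod_insert_last]
    rintro ⟨w, hw⟩
    have hne : (Pool.Agent.H519.Q7.PD D).Nonempty := by
      rw [Finset.nonempty_iff_ne_empty]
      intro he
      apply h1
      rw [← (Adm.ps hD).prod, he, Finset.prod_empty]
    obtain ⟨π, hπ⟩ := hne
    rw [Pool.Agent.H519.Q7.mem_PD (Adm.ps hD).ne] at hπ
    obtain ⟨h2, h3⟩ := hπ
    have h4 : π ∣ w * w := by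
      rw [← hw]
      exact h3.mul_right _
    have h5 : π ∣ w := (h2.pr.dvd_or_dvd h4).elim id id
    obtain ⟨w', rfl⟩ := h5
    have h6 : ¬ π ∣ ∏ i ∈ T', d i := fun h6 =>
      h2.pr.not_isUnit (hc.isUnit_of_dvd' h3 ((h6.mul_left M).trans (mprod_dvd M d T')))
    obtain ⟨D', hD'⟩ := h3
    have h7 : D' * ∏ i ∈ T', d i = π * (w' * w') := by
      apply mul_left_cancel₀ h2.pr.ne_zero
      rw [hD'] at hw
      linear_combination hw
    rcases h2.pr.dvd_or_dvd ⟨_, h7⟩ with h8 | h8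
    · apply h2.pr.not_isUnit (hD.1 π _)
      rw [hD']
      exact mul_dvd_mul_left π h8
    · exact h6 h8

theorem ext_iff {n : ℕ} {M : OK} {d : Fin n → OK} (h : InClass M d) {P : OK → Prop}
    (hP : Pair P M d) {D : OK} (hD : Adm D) (hc : IsCoprime D (M * ∏ i, d i)) (h1 : D ≠ 1) :
    Pair P M (add d D) ↔ Pair P (M * D) d := by
  constructor
  · intro hp
    refine ⟨h.2.2, fun T => ?_⟩
    obtain ⟨D', z, hz, hD', hP', e⟩ := hp.2 (insert (Fin.last n) (T.map Fin.castSuccEmb))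
    rw [prod_insert_last, ← mul_assoc] at e
    exact ⟨D', z, hz, hD', hP', e⟩
  · intro hp
    refine ⟨ind_add h hD hc h1, fun T => ?_⟩
    obtain ⟨T', rfl | rfl⟩ := cases_last T
    · rw [prod_castSucc]
      exact hP.2 T'
    · rw [prod_insert_last, ← mul_assoc]
      exact hp.2 T'

/-- the counts of two properties which are the same for `D ≠ 1` -/
theorem count_le {m : OK} {P Q : OK → Prop}
    (h : ∀ D, Adm D → IsCoprime D m → D ≠ 1 → (P D → Q D)) (X : ℕ) :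
    count m P X ≤ count m Q X + 1 := by
  have key : ∀ P : OK → Prop, count m P X = ((Pool.Agent.H519.Q7.ZB X).filter fun D =>
      Adm D ∧ IsCoprime D m ∧ P D).card := by
    intro P
    unfold count
    apply Nat.subtype_card
    intro D
    rw [Finset.mem_filter, Pool.Agent.H519.Q7.mem_ZB, norm_iff]
    tauto
  rw [key P, key Q]
  refine le_trans (Finset.card_le_card (t := insert 1 ((Pool.Agent.H519.Q7.ZB X).filter fun D =>
      Adm D ∧ IsCoprime D m ∧ Q D)) ?_) (Finset.card_insert_le _ _)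
  intro D hD
  rw [Finset.mem_filter] at hD
  rw [Finset.mem_insert, Finset.mem_filter]
  by_cases h1 : D = 1
  · exact Or.inl h1
  · exact Or.inr ⟨hD.1, hD.2.1, hD.2.2.1, h D hD.2.1 hD.2.2.1 h1 hD.2.2.2⟩

theorem count_atTop {m : OK} (hm : Pool.Agent.H519.Q7.prim m) :
    Tendsto (fun X : ℕ => (count m (fun _ => True) X : ℝ)) atTop atTop := by
  obtain ⟨c, X₀, hc, h⟩ := Pool.Agent.H519.Q7.Low.low (Pool.Agent.H519.Q7.PD m)
    (fun u hu => PP_of_PD hm hu)
  refine tendsto_atTop_mono' atTop (f₁ := fun X : ℕ => c * (X : ℝ)) ?_ ?_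
  · filter_upwards [eventually_ge_atTop X₀] with X hX
    rw [count_true hm]
    exact h X hX
  · exact tendsto_natCast_atTop_atTop.const_mul_atTop hc

theorem dens_ext {n : ℕ} {M : OK} {d : Fin n → OK} (h : InClass M d) (P : OK → Prop)
    (hP : Pair P M d) {y : ℝ} (hy : Density (M * ∏ i, d i) (fun D => Pair P (M * D) d) y) :
    Density (M * ∏ i, d i) (fun D => Pair P M (add d D)) y := by
  have hm := (mprod_class h Finset.univ).1
  have hle1 := count_le (m := M * ∏ i, d i) (P := fun D => Pair P (M * D) d)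
    (Q := fun D => Pair P M (add d D)) fun D hD hc h1 => (ext_iff h hP hD hc h1).2
  have hle2 := count_le (m := M * ∏ i, d i) (P := fun D => Pair P M (add d D))
    (Q := fun D => Pair P (M * D) d) fun D hD hc h1 => (ext_iff h hP hD hc h1).1
  have hinf := count_atTop hm
  unfold Density at hy ⊢
  have h0 : Tendsto (fun X : ℕ => 1 / (count (M * ∏ i, d i) (fun _ => True) X : ℝ)) atTop
      (𝓝 0) := by
    simp only [one_div]
    exact hinf.inv_tendsto_atTop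
  have h2 : Tendsto (fun X : ℕ =>
      (count (M * ∏ i, d i) (fun D => Pair P M (add d D)) X : ℝ) /
        (count (M * ∏ i, d i) (fun _ => True) X : ℝ) -
      (count (M * ∏ i, d i) (fun D => Pair P (M * D) d) X : ℝ) /
        (count (M * ∏ i, d i) (fun _ => True) X : ℝ)) atTop (𝓝 0) := by
    refine squeeze_zero_norm (fun X => ?_) h0
    rw [← sub_div, Real.norm_eq_abs, abs_div, Nat.abs_cast]
    refine div_le_div_of_nonneg_right ?_ (Nat.cast_nonneg _)
    rw [abs_sub_le_iff]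
    have a1 : (count (M * ∏ i, d i) (fun D => Pair P (M * D) d) X : ℝ) ≤
        (count (M * ∏ i, d i) (fun D => Pair P M (add d D)) X : ℝ) + 1 := by
      exact_mod_cast hle1 X
    have a2 : (count (M * ∏ i, d i) (fun D => Pair P M (add d D)) X : ℝ) ≤
        (count (M * ∏ i, d i) (fun D => Pair P (M * D) d) X : ℝ) + 1 := by
      exact_mod_cast hle2 X
    constructor <;> linarith
  have h3 := hy.add h2
  rw [add_zero] at h3
  refine h3.congr fun X => ?_
  ring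

end Pool.Agent.H519.KW.Dn
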