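import Pool.Agent.H519.Q7.All
import Pool.Graph.R_pool_sql_team_seeded_3dad9d7b.NH57.BL.Gal2

/-!
# Project KW: the definitions of the final statement about the good twists and their density
-/

set_option autoImplicit false

open scoped Classical

namespace Pool.Agent.H519.KW.Fd

open Filter Topology

/-- The ring of integers `ℤ[ω]`, `ω² = ω - 2`, of `ℚ(√-7)`. -/
abbrev OK : Type := QuadraticAlgebra ℤ (-2) 1

/-- `ω` -/
def om : OK := ⟨0, 1⟩

/-- `√-7 = 2 ω - 1` -/
def s7 : OK := ⟨-1, 2⟩

/-- The norm of an element of `ℤ[ω]`. -/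
def norm (z : OK) : ℤ := z.re ^ 2 + z.re * z.im + 2 * z.im ^ 2

/-- The class: `D` is squarefree, `D ≡ 1 mod 8` and prime to `√-7`. -/
def Adm (D : OK) : Prop := Squarefree D ∧ (8 : OK) ∣ D - 1 ∧ ¬ s7 ∣ D

/-- The primary primes: the prime elements that are prime to `2 √-7` and `1` modulo `ω²`. Each prime ideal
that does not divide `2 √-7` is generated by exactly one of them. -/
def Primary (q : OK) : Prop := Prime q ∧ om ^ 2 ∣ q - 1 ∧ ¬ (1 - om) ∣ q ∧ ¬ s7 ∣ q

/-- The additive residue symbol: `0` if `x` is a square modulo `q`, otherwise `1`. -/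
noncomputable def sym (q x : OK) : ZMod 2 := if ∃ y : OK, q ∣ x - y ^ 2 then 0 else 1

/-- The row `π` of the matrix `M_S` of the symbols, applied to `v`. -/
noncomputable def row (S : Finset OK) (v : OK → ZMod 2) (π : OK) : ZMod 2 :=
  sym s7 π * v π + ∑ ρ ∈ S, sym ρ π * (v π + v ρ)

/-- The matrix `M_S` is not singular. -/
def Regular (S : Finset OK) : Prop :=
  ∀ v : OK → ZMod 2, (∀ π ∈ S, row S v π = 0) → ∀ π ∈ S, v π = 0

/-- The matrix `M_S`, bordered by the column of the symbols of `1 - ω` and the row of the symbols of `ω`,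
is not singular. -/
def Bordered (S : Finset OK) : Prop :=
  ∀ (v : OK → ZMod 2) (e : ZMod 2), (∀ π ∈ S, row S v π + e * sym π (1 - om) = 0) →
    ∑ ρ ∈ S, sym ρ om * v ρ = 0 → (∀ π ∈ S, v π = 0) ∧ e = 0

/-- The good `D`: `M_S` is not singular, `S` being the set of the primary prime factors of `D`. -/
def Good (D : OK) : Prop :=
  ∃ S : Finset OK, (∀ q ∈ S, Primary q) ∧ ∏ q ∈ S, q = D ∧ Regular S

/-- The very good `D`: also the bordered matrix is not singular. -/
def VeryGood (D : OK) : Prop :=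
  ∃ S : Finset OK, (∀ q ∈ S, Primary q) ∧ ∏ q ∈ S, q = D ∧ Regular S ∧ Bordered S

/-- No product of some of the `d_i` is a square: `K(√d_1, …, √d_n)` has degree `2 ^ n` over `K`. -/
def Ind {n : ℕ} (d : Fin n → OK) : Prop :=
  ∀ T : Finset (Fin n), T.Nonempty → ¬ IsSquare (∏ i ∈ T, d i)

/-- The pair of `M` and `d_1, …, d_n` has the property `P`: the `d_i` are independent modulo squares, and
all the `M ∏_{i ∈ T} d_i` are, up to nonzero squares, elements `D` of the class with `P D`. -/
def Pair (P : OK → Prop) (M : OK) {n : ℕ} (d : Fin n → OK) : Prop := Ind d ∧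
  ∀ T : Finset (Fin n), ∃ D z : OK, z ≠ 0 ∧ Adm D ∧ P D ∧ M * ∏ i ∈ T, d i = D * z ^ 2

/-- `M`, `d_1, …, d_n` are in the class, and `d_1, …, d_n` are independent modulo squares. -/
def InClass (M : OK) {n : ℕ} (d : Fin n → OK) : Prop := Adm M ∧ (∀ i, Adm (d i)) ∧ Ind d

/-- The elements `d_1, …, d_n, D`. -/
def add {n : ℕ} (d : Fin n → OK) (D : OK) : Fin (n + 1) → OK := Fin.snoc d D

/-- The number of the `D` of the class of norm at most `X`, prime to `m`, with the property `P`. -/
noncomputable def count (m : OK) (P : OK → Prop) (X : ℕ) : ℕ :=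
  Nat.card {D : OK // Adm D ∧ norm D ≤ X ∧ IsCoprime D m ∧ P D}

/-- The natural density of `P` in the set of the `D` of the class that are prime to `m` is `y`. -/
def Density (m : OK) (P : OK → Prop) (y : ℝ) : Prop :=
  Tendsto (fun X : ℕ => (count m P X : ℝ) / (count m (fun _ => True) X : ℝ)) atTop (𝓝 y)

end Pool.Agent.H519.KW.Fd
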