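import Pool.Agent.H519.KW.Iso

/-!
# Project KW: the symbols in the two models

`aa p l` (`Pool.Agent.Y690.AW.aa`) is `1` if `p` is not a square modulo `l`, otherwise `0`; `Pool.Agent.R384.qs q x` is
`1` if `x` is not a square modulo `q`, otherwise `0`; `bb`, `zb`, `cb`, `O1` are in
`Pool/Graph/R_pool_sql_team_seeded_1e53cb71/Helper35K9/S8/Base.lean`. `fe` takes the ideal `(ω)` to `(β)` and `(1 - ω)` to
`(α)`; modulo `√-7` one has `2 α = 1`. `Pp` is in `Pool/Graph/R_pool_sql_team_seeded_3dad9d7b/NH57/BK/Stm.lean`.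
-/

set_option autoImplicit false

open scoped Classical

namespace Pool.Agent.H519.KW

open Pool.Agent.R384 (OO om s7 em)
open Pool.Agent.Y698 (RR aR bR)
open Pool.Agent.NH57.BK (Pp tO)
open Pool.Agent.NH57.BG (e6 e3)
open Pool.Agent.Helper35K9.S8 (O1 bb zb cb)
open Pool.Agent.Y690.AW (aa)

/-! ### coordinates of the primary primes -/

lemma pp_im {q : OO} (h : Pp q) : q.im % 2 = 0 := by
  by_contra hc
  have h1 : q.im % 2 = 1 := by omega
  have h4 : ((q.re + 2 * q.im - 1 : ℤ) : ZMod 4) = 0 := by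
    have h5 : ((q.re : ZMod 4) + (q.im : ZMod 4) * 2) = 1 := h.one
    push_cast
    linear_combination h5
  rw [ZMod.intCast_zmod_eq_zero_iff_dvd] at h4
  have h6 : (q.re + q.im) % 2 = 0 := by omega
  obtain ⟨c, hc⟩ : ∃ c, q.re + q.im = 2 * c := ⟨(q.re + q.im) / 2, by omega⟩
  apply h.odd
  have e2 : ((c : ℤ) : OO) * 2 = ((q.re + q.im : ℤ) : OO) := by
    rw [hc]
    push_cast
    ring
  have h7 : q = ((c : ℤ) : OO) * (om * (1 - om)) - ((q.im : ℤ) : OO) * (1 - om) := by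
    rw [Pool.Agent.R384.om_mul, e2]
    ext
    · simp [om, QuadraticAlgebra.re_one]
    · simp [om, QuadraticAlgebra.im_one]
  rw [h7, ← mul_assoc, ← sub_mul]
  exact Dvd.intro_left _ rfl

lemma pp_re {q : OO} (h : Pp q) : q.re % 4 = 1 := by
  have h1 := pp_im h
  have h4 : ((q.re + 2 * q.im - 1 : ℤ) : ZMod 4) = 0 := by
    have h5 : ((q.re : ZMod 4) + (q.im : ZMod 4) * 2) = 1 := h.one
    push_cast
    linear_combination h5
  rw [ZMod.intCast_zmod_eq_zero_iff_dvd] at h4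
  omega

lemma pp_nn {q : OO} (h : Pp q) : Pool.Agent.R384.nn q % 4 = if q.im % 4 = 0 then 1 else 3 := by
  have h1 := pp_im h
  have h2 := pp_re h
  obtain ⟨b, hb⟩ : ∃ b, q.im = 2 * b := ⟨q.im / 2, by omega⟩
  obtain ⟨a, ha⟩ : ∃ a, q.re = 4 * a + 1 := ⟨q.re / 4, by omega⟩
  have e : Pool.Agent.R384.nn q = 4 * (4 * a ^ 2 + 2 * a + 2 * a * b + 2 * b ^ 2) + 1 + 2 * b := by
    unfold Pool.Agent.R384.nn
    rw [ha, hb]
    ring
  rw [e]
  split_ifs <;> omega

lemma pp_ndvd2 {q : OO} (h : Pp q) : ¬ q ∣ 2 := by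
  rintro ⟨t, ht⟩
  have h1 : Pool.Agent.R384.nn q * Pool.Agent.R384.nn t = 4 := by
    rw [← Pool.Agent.R384.nn_mul, ← ht]
    have := Pool.Agent.R384.nn_int 2
    push_cast at this
    rw [this]
  have h2 := pp_nn h
  have h3 := Pool.Agent.R384.nn_nonneg q
  have h4 := Pool.Agent.R384.nn_nonneg t
  have h5 : Pool.Agent.R384.nn q % 2 = 1 := by
    split_ifs at h2 <;> omega
  have h6 : Pool.Agent.R384.nn q ≤ 4 := by
    have : 0 < Pool.Agent.R384.nn t := by
      rcases h4.lt_or_eq with h | h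
      · exact h
      · rw [← h, mul_zero] at h1
        norm_num at h1
    nlinarith
  have h7 : Pool.Agent.R384.nn q ≠ 1 := fun h7 =>
    h.prime.not_isUnit (Pool.Agent.R384.unit_iff.2 h7)
  have h8 : Pool.Agent.R384.nn q = 3 := by omega
  rw [h8] at h1
  omega

lemma pp_tO {q : OO} (h : Pp q) : tO q = if q.im % 4 = 0 then 0 else 1 := by
  unfold Pool.Agent.NH57.BK.tO
  rw [pp_nn h]
  split_ifs with h1 h2 <;> first | rfl | (exfalso; omega)

/-! ### the isomorphism -/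

lemma bR_eq : bR = 1 - aR := rfl

lemma fe_om : fe om = bR := by
  rw [fe_apply]
  simp [om]

lemma fe_om' : fe (1 - om) = aR := by
  rw [map_sub, map_one, fe_om, bR_eq]
  ring

lemma fe_neg_s7 : fe (-s7) = sR := by
  rw [map_neg, fe_s7, neg_neg]

lemma fe_dvd (x y : OO) : fe x ∣ fe y ↔ x ∣ y := map_dvd_iff fe

lemma fe_mem (q x : OO) : fe x ∈ Pool.Agent.W192.HK.sp (fe q) ↔ q ∣ x := by
  rw [Ideal.mem_span_singleton, fe_dvd]

lemma fe_sq (q x : OO) : (∃ b : RR, b * b - fe x ∈ Pool.Agent.W192.HK.sp (fe q)) ↔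
    Pool.Agent.R384.Sqm q x := by
  constructor
  · rintro ⟨b, hb⟩
    obtain ⟨y, rfl⟩ := fe.surjective b
    refine ⟨y, ?_⟩
    rw [← map_mul, ← map_sub, fe_mem] at hb
    have e : x - y ^ 2 = -(y * y - x) := by ring
    rw [e]
    exact (dvd_neg).2 hb
  · rintro ⟨y, hy⟩
    refine ⟨fe y, ?_⟩
    rw [← map_mul, ← map_sub, fe_mem]
    have e : y * y - x = -(x - y ^ 2) := by ring
    rw [e]
    exact (dvd_neg).2 hy

/-- reduction of `RR` -/
noncomputable abbrev evR {n : ℕ} (a : ZMod n) (ha : a ^ 2 = a - 2) : RR →+* ZMod n :=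
  Pool.Agent.Y698.ev a ha

lemma evR_aR {n : ℕ} (a : ZMod n) (ha : a ^ 2 = a - 2) : evR a ha aR = a :=
  Pool.Agent.Y698.ev_aR a ha

lemma evR_bR {n : ℕ} (a : ZMod n) (ha : a ^ 2 = a - 2) : evR a ha bR = 1 - a := by
  rw [bR_eq, map_sub, map_one, evR_aR]

lemma evR_sR {n : ℕ} (a : ZMod n) (ha : a ^ 2 = a - 2) : evR a ha sR = 2 * a - 1 := by
  unfold sR
  rw [map_sub, map_mul, map_one, evR_aR, map_ofNat]

lemma fe_prime {q : OO} (h : Prime q) : Prime (fe q) := (MulEquiv.prime_iff fe).2 h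

lemma prime_sR : Prime sR := by
  rw [← fe_neg_s7]
  exact fe_prime Pool.Agent.R384.prime_s7.neg

/-- `q = 1` modulo `ω²` -/
lemma one_mod_sq {q : OO} (h : ((q.re : ZMod 4) + (q.im : ZMod 4) * 2) = 1) :
    ∃ d : OO, q = 1 + om ^ 2 * d := by
  have h4 : ((q.re + 2 * q.im - 1 : ℤ) : ZMod 4) = 0 := by
    push_cast
    linear_combination h
  rw [ZMod.intCast_zmod_eq_zero_iff_dvd] at h4
  obtain ⟨k, hk⟩ := h4
  refine ⟨⟨q.im - k, -k⟩, ?_⟩
  have e : om ^ 2 = om * om := pow_two _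
  rw [e]
  ext
  · simp [om, QuadraticAlgebra.re_one]
    push_cast at hk
    linarith
  · simp [om, QuadraticAlgebra.im_one]
    ring

lemma o1_fe {q : OO} (h : Pp q) : O1 (fe q) := by
  constructor
  · obtain ⟨d, hd⟩ := one_mod_sq (q := q) h.one
    refine ⟨fe d, ?_⟩
    conv_lhs => rw [hd]
    rw [map_add, map_one, map_mul, map_pow, fe_om]
    rfl
  · have h1 := pp_im h
    have h2 := pp_re h
    obtain ⟨k, hk⟩ : ∃ k, q.re - 1 + q.im = 2 * k := ⟨(q.re - 1 + q.im) / 2, by omega⟩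
    have e2 : ((k : ℤ) : OO) * 2 = ((q.re - 1 + q.im : ℤ) : OO) := by
      rw [hk]
      push_cast
      ring
    have e : q = 1 + (1 - om) * (om * ((k : ℤ) : OO) - ((q.im : ℤ) : OO)) := by
      have e3 : (1 - om) * (om * ((k : ℤ) : OO) - ((q.im : ℤ) : OO)) =
          ((k : ℤ) : OO) * (om * (1 - om)) - ((q.im : ℤ) : OO) * (1 - om) := by ring
      rw [e3, Pool.Agent.R384.om_mul, e2]
      ext
      · simp [om, QuadraticAlgebra.re_one]
      · simp [om, QuadraticAlgebra.im_one]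
    refine ⟨fe (om * ((k : ℤ) : OO) - ((q.im : ℤ) : OO)), ?_⟩
    conv_lhs => rw [e]
    rw [map_add, map_one, map_mul, fe_om']

lemma ab_two : aR * bR = 2 := Pool.Agent.Y698.aR_mul_bR

lemma sR_eq : sR = 1 + bR ^ 2 * (-aR) := by
  have h := ab_two
  unfold sR
  have h2 := bR_eq
  linear_combination bR * h + 2 * h2

lemma o1_sR : O1 sR := by
  constructor
  · exact ⟨-aR, sR_eq⟩
  · refine ⟨-bR ^ 2, ?_⟩
    rw [sR_eq]
    ring

lemma sR_notMem {S : Finset OO} (hS : ∀ q ∈ S, Pp q) : sR ∉ S.image fe := by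
  intro h
  obtain ⟨q, hq, hqs⟩ := Finset.mem_image.1 h
  rw [← fe_neg_s7] at hqs
  have h1 := fe.injective hqs
  apply (hS q hq).sev
  rw [h1]
  exact (dvd_neg).2 dvd_rfl

lemma aa_fe (x q : OO) : aa (fe x) (fe q) = Pool.Agent.R384.qs q x := by
  unfold Pool.Agent.Y690.AW.aa Pool.Agent.Y690.NV.qs Pool.Agent.R384.qs
  simp only [fe_sq, fe_mem]
  by_cases h1 : Pool.Agent.R384.Sqm q x
  · rw [if_pos h1, if_pos h1]
    split_ifs with h2 h3 <;> simp_all
  · have h2 : ¬ q ∣ x := fun h3 => h1 ⟨0, by simpa using h3⟩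
    rw [if_neg h1, if_neg h2, if_neg h1]
    simp

lemma aa_sR_fe {q : OO} : aa sR (fe q) = Pool.Agent.R384.qs q (-s7) := by
  rw [← fe_neg_s7, aa_fe]

lemma aa_fe_sR {q : OO} : aa (fe q) sR = Pool.Agent.R384.qs s7 q := by
  rw [← fe_neg_s7, aa_fe]
  apply Pool.Agent.R384.qs_eq
  unfold Pool.Agent.R384.Sqm
  simp only [neg_dvd]

lemma bb_fe {q : OO} (h : Pp q) : bb (fe q) = tO q := by
  have h1 := pp_im h
  have h2 := pp_re h
  rw [pp_tO h]
  unfold Pool.Agent.Helper35K9.S8.bb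
  have key : (∃ d : RR, fe q = 1 + aR ^ 2 * d) ↔ q.im % 4 = 0 := by
    constructor
    · rintro ⟨d, hd⟩
      have h3 := congrArg (evR (2 : ZMod 4) (by decide)) hd
      rw [fe_apply, map_add, map_mul, map_intCast, map_intCast, evR_bR, map_add, map_one, map_mul,
        map_pow, evR_aR] at h3
      have h4 : ((q.re - q.im - 1 : ℤ) : ZMod 4) = 0 := by
        have h8 : (4 : ZMod 4) = 0 := by decide
        push_cast
        linear_combination h3 + (evR (2 : ZMod 4) (by decide) d) * h8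
      rw [ZMod.intCast_zmod_eq_zero_iff_dvd] at h4
      omega
    · intro h3
      obtain ⟨k, hk⟩ : ∃ k, q.im = 4 * k := ⟨q.im / 4, by omega⟩
      obtain ⟨l, hl⟩ : ∃ l, q.re = 4 * l + 1 := ⟨q.re / 4, by omega⟩
      refine ⟨bR ^ 2 * ((l : RR) + (k : RR) * bR), ?_⟩
      rw [fe_apply, hk, hl]
      push_cast
      have h4 := ab_two
      have h5 : aR ^ 2 * bR ^ 2 = 4 := by
        rw [← mul_pow, h4]
        norm_num
      linear_combination (-((l : RR) + (k : RR) * bR)) * h5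
  simp only [key]

lemma bb_sR : bb sR = 1 := by
  unfold Pool.Agent.Helper35K9.S8.bb
  rw [if_neg]
  rintro ⟨d, hd⟩
  have h3 := congrArg (evR (2 : ZMod 4) (by decide)) hd
  rw [evR_sR, map_add, map_one, map_mul, map_pow, evR_aR] at h3
  have h8 : (4 : ZMod 4) = 0 := by decide
  have h9 : (2 : ZMod 4) = 0 := by
    linear_combination h3 + (evR (2 : ZMod 4) (by decide) d) * h8
  revert h9
  decide

lemma om_cube (a b : ℤ) : om ^ 3 * (⟨a, b⟩ : OO) = ⟨-2 * a + 2 * b, -a - 3 * b⟩ := by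
  have e : om ^ 3 = om * om * om := by ring
  rw [e]
  ext
  · simp [om]
  · simp [om]
    ring

lemma zb_fe {q : OO} (h : Pp q) : zb (fe q) = if em e6 q = 5 then 1 else 0 := by
  have h1 := pp_im h
  have h2 := pp_re h
  have t6 : em e6 q = ((q.re + 6 * q.im : ℤ) : ZMod 8) := by
    rw [Pool.Agent.R384.em_apply]
    push_cast
    ring
  have h15 : em e6 q = 1 ∨ em e6 q = 5 := by
    rw [t6]
    have key : ∀ (n r : ℤ), n % 8 = r → ((n : ℤ) : ZMod 8) = ((r : ℤ) : ZMod 8) := by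
      intro n r hr
      rw [← sub_eq_zero, ← Int.cast_sub, ZMod.intCast_zmod_eq_zero_iff_dvd]
      omega
    have : (q.re + 6 * q.im) % 8 = 1 ∨ (q.re + 6 * q.im) % 8 = 5 := by omega
    rcases this with h3 | h3
    · left
      rw [key _ _ h3]
      decide
    · right
      rw [key _ _ h3]
      decide
  have key : (∃ d : RR, fe q = 1 + bR ^ 3 * d) ↔ em e6 q = 1 := by
    constructor
    · rintro ⟨d, hd⟩
      obtain ⟨x, rfl⟩ := fe.surjective d
      have h3 : q = 1 + om ^ 3 * x := by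
        apply fe.injective
        rw [hd, map_add, map_one, map_mul, map_pow, fe_om]
      rw [h3, map_add, map_one, map_mul, map_pow]
      have h4 : em e6 om = 6 := by
        rw [Pool.Agent.R384.em_apply]
        simp [om]
      rw [h4]
      have h5 : (6 : ZMod 8) ^ 3 = 0 := by decide
      rw [h5, zero_mul, add_zero]
    · intro h3
      have h4 : ((q.re + 6 * q.im - 1 : ℤ) : ZMod 8) = 0 := by
        rw [Int.cast_sub, ← t6, h3, Int.cast_one, sub_self]
      rw [ZMod.intCast_zmod_eq_zero_iff_dvd] at h4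
      obtain ⟨k, hk⟩ := h4
      have hk' : q.re = 8 * k + 1 - 6 * q.im := by
        push_cast at hk
        linarith
      refine ⟨fe ⟨2 * q.im - 3 * k, k - q.im⟩, ?_⟩
      rw [← fe_om, ← map_pow, ← map_mul, ← map_one fe, ← map_add]
      congr 1
      rw [om_cube]
      ext
      · simp [QuadraticAlgebra.re_one]
        linarith
      · simp [QuadraticAlgebra.im_one]
        ring
  unfold Pool.Agent.Helper35K9.S8.zb
  simp only [key]
  rcases h15 with h3 | h3
  · rw [h3, if_pos rfl, if_neg (by decide)]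
  · rw [h3, if_neg (by decide), if_pos rfl]

lemma zb_sR : zb sR = 1 := by
  unfold Pool.Agent.Helper35K9.S8.zb
  rw [if_neg]
  rintro ⟨d, hd⟩
  have h3 := congrArg (evR (3 : ZMod 8) (by decide)) hd
  rw [evR_sR, map_add, map_one, map_mul, map_pow, evR_bR] at h3
  have h8 : ((1 : ZMod 8) - 3) ^ 3 = 0 := by decide
  rw [h8, zero_mul, add_zero] at h3
  revert h3
  decide

lemma cb_fe (q : OO) : cb (fe q) = Pool.Agent.R384.qs q (-(1 - om)) := by
  unfold Pool.Agent.Helper35K9.S8.cb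
  rw [← fe_om', ← map_neg, aa_fe]

/-- reduction modulo `√-7` -/
lemma h47 : (4 : ZMod 7) ^ 2 = 4 - 2 := by decide

lemma sp_sR {x : RR} (h : x ∈ Pool.Agent.W192.HK.sp sR) : evR (4 : ZMod 7) h47 x = 0 := by
  rw [Ideal.mem_span_singleton] at h
  obtain ⟨d, rfl⟩ := h
  rw [map_mul, evR_sR]
  have : (2 * 4 - 1 : ZMod 7) = 0 := by decide
  rw [this, zero_mul]

lemma nr7 {x : RR} {c : ZMod 7} (hx : evR (4 : ZMod 7) h47 x = c)
    (hc : c ≠ 0 ∧ ∀ b : ZMod 7, b * b - c ≠ 0) : Pool.Agent.Y690.NV.qs sR x = -1 := by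
  unfold Pool.Agent.Y690.NV.qs
  rw [if_neg, if_neg]
  · rintro ⟨b, hb⟩
    have := sp_sR hb
    rw [map_sub, map_mul, hx] at this
    exact hc.2 _ this
  · intro h
    have := sp_sR h
    rw [hx] at this
    exact hc.1 this

lemma cb_sR : cb sR = 1 := by
  unfold Pool.Agent.Helper35K9.S8.cb Pool.Agent.Y690.AW.aa
  rw [if_pos]
  exact nr7 (c := -4) (by rw [map_neg, evR_aR]) (by decide)

/-- `-1` is not a square modulo `√-7` -/
lemma qs_sR_neg : Pool.Agent.Y690.NV.qs sR (-1) = -1 :=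
  nr7 (c := -1) (by rw [map_neg, map_one]) (by decide)

/-- the symbol of `-1` -/
lemma qs_fe_neg {q : OO} (h : Pp q) (hm : Pool.Agent.R384.qs q (-1) = tO q) :
    Pool.Agent.Y690.NV.qs (fe q) (-1) = if tO q = 0 then 1 else -1 := by
  have h1 : ¬ q ∣ -1 := fun hd => h.prime.not_isUnit (isUnit_of_dvd_unit hd isUnit_one.neg)
  have e : (-1 : RR) = fe (-1) := by rw [map_neg, map_one]
  rw [← hm]
  unfold Pool.Agent.Y690.NV.qs
  rw [e]
  simp only [fe_sq, fe_mem]
  rw [if_neg h1]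
  simp only [Pool.Agent.R384.qs_zero]

open Pool.Agent.R384 in
/-- the additive symbol is additive at elements prime to `q` -/
lemma qs_add {q : OO} (h : Pp q) {x y : OO} (hx : ¬ q ∣ x) (hy : ¬ q ∣ y) :
    Pool.Agent.R384.qs q (x * y) = Pool.Agent.R384.qs q x + Pool.Agent.R384.qs q y := by
  let _ := fld h.prime
  let _ := ftp h.prime
  have h0x : (Ideal.Quotient.mk (Ideal.span {q}) x) ≠ 0 := fun h => hx ((mk_eq_zero q x).1 h)
  have h0y : (Ideal.Quotient.mk (Ideal.span {q}) y) ≠ 0 := fun h => hy ((mk_eq_zero q y).1 h)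
  have hc : ringChar (FF q) ≠ 2 := by
    intro h2
    apply pp_ndvd2 h
    have h1 : ((2 : ℕ) : FF q) = 0 := by
      rw [← h2]
      exact CharP.cast_eq_zero _ _
    rw [← mk_eq_zero]
    rw [map_ofNat]
    exact_mod_cast h1
  have hxy : (Ideal.Quotient.mk (Ideal.span {q}) (x * y)) ≠ 0 := by
    rw [map_mul]
    exact mul_ne_zero h0x h0y
  have key : ∀ z : OO, (Ideal.Quotient.mk (Ideal.span {q}) z) ≠ 0 →
      (qs q z = 0 ↔ quadraticChar (FF q) (Ideal.Quotient.mk (Ideal.span {q}) z) = 1) := by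
    intro z hz
    rw [qs_zero, sqm_iff, quadraticChar_one_iff_isSquare hz]
  have kx := key x h0x
  have ky := key y h0y
  have kxy := key _ hxy
  rw [map_mul, map_mul] at kxy
  have dx := quadraticChar_dichotomy h0x
  have dy := quadraticChar_dichotomy h0y
  have h01 : ∀ a : ZMod 2, a = 0 ∨ a = 1 := by decide
  rcases dx with dx | dx <;> rcases dy with dy | dy <;> rw [dx] at kx kxy <;> rw [dy] at ky kxy <;>
    rcases h01 (qs q x) with e1 | e1 <;> rcases h01 (qs q y) with e2 | e2 <;>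
    rcases h01 (qs q (x * y)) with e3 | e3 <;> rw [e1] at kx ⊢ <;> rw [e2] at ky ⊢ <;>
    rw [e3] at kxy ⊢ <;> revert kx ky kxy <;> decide

end Pool.Agent.H519.KW
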