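import Pool.Agent.H519.KW.Fd
import Pool.Agent.H519.KW.Sym
import Pool.Agent.H519.Q7.Rec0

/-!
# Project KW: from `Good`, `VeryGood` to the hypotheses of the vanishing theorems (task KW-GB)

`Primary q ↔ BK.Pp q`, `sym = R384.qs`; `R384.qs π (-1) = BK.tO π` by `Pool.Agent.H519.Q7.rec_BK`, and
`qs π (x * y) = qs π x + qs π y` for `x`, `y` prime to `π` (`Pool/Agent/H519/KW/Sym.lean`, `qs_add`), so
`sym π (1 - ω) = gO 0 π`, `sym π ω = dO 0 π` (`BH.gO`, `BH.dO` in
`Pool/Graph/R_pool_sql_team_seeded_3dad9d7b/NH57/BL/Gal2.lean`). `BH.aa 0 0 = 0`. `em e6`, `em e3` of an element that is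
`1` modulo `8` are `1`.
-/

set_option autoImplicit false

open scoped Classical

namespace Pool.Agent.H519.KW.Gb

open Pool.Agent.H519.KW.Fd

theorem om_eq : (om : OK) = Pool.Agent.R384.om := rfl

theorem s7_eq : (s7 : OK) = Pool.Agent.R384.s7 := rfl

theorem sym_eq (q x : OK) : sym q x = Pool.Agent.R384.qs q x := rfl

theorem pp_of {q : OK} (h : Primary q) : Pool.Agent.NH57.BK.Pp q := by
  obtain ⟨h1, ⟨t, ht⟩, h3, h4⟩ := h
  refine ⟨h1, ?_, h3, h4⟩
  have e : q = 1 + om ^ 2 * t := by rw [← ht]; ring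
  rw [e, map_add, map_one, map_mul, map_pow]
  have e2 : Pool.Agent.R384.em Pool.Agent.NH57.BK.h2 om = 2 := by
    rw [Pool.Agent.R384.em_apply]
    simp [om]
  rw [e2]
  have e3 : (2 : ZMod 4) ^ 2 = 0 := by decide
  rw [e3, zero_mul, add_zero]

theorem goodS_of {S : Finset OK} (hS : ∀ q ∈ S, Primary q) (h8 : (8 : OK) ∣ ∏ q ∈ S, q - 1)
    (hR : Regular S) : Pool.Agent.NH57.BK.GoodS S := by
  refine ⟨fun q hq => pp_of (hS q hq), ?_, fun v hv => hR v hv⟩
  refine Dvd.dvd.trans ⟨2, ?_⟩ h8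
  norm_num

theorem em_one {n : ℕ} {w : ZMod n} (hw : w ^ 2 = w - 2) (h8n : (8 : ZMod n) = 0) {P : OK}
    (h8 : (8 : OK) ∣ P - 1) : Pool.Agent.R384.em hw P = 1 := by
  obtain ⟨t, ht⟩ := h8
  have e : P = 1 + 8 * t := by rw [← ht]; ring
  rw [e, map_add, map_one, map_mul, map_ofNat, h8n, zero_mul, add_zero]

theorem not_dvd_om {q : OK} (h : Primary q) : ¬ q ∣ om := by
  intro hd
  have h1 : (om : OK) ∣ q := h.1.irreducible.dvd_symm Pool.Agent.R384.prime_om.irreducible hd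
  have h2 : (om : OK) ∣ q - 1 := (dvd_pow_self om (by norm_num)).trans h.2.1
  have h3 : (om : OK) ∣ 1 := by
    have := dvd_sub h1 h2
    rwa [sub_sub_cancel] at this
  exact Pool.Agent.R384.prime_om.not_isUnit (isUnit_of_dvd_one h3)

theorem not_dvd_om' {q : OK} (h : Primary q) : ¬ q ∣ 1 - om := by
  intro hd
  exact h.2.2.1 (h.1.irreducible.dvd_symm Pool.Agent.R384.prime_om'.irreducible hd)

theorem goodX_of {S : Finset OK} (hS : ∀ q ∈ S, Primary q) (h8 : (8 : OK) ∣ ∏ q ∈ S, q - 1)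
    (hR : Regular S) (hB : Bordered S) : Pool.Agent.NH57.BH.GoodX 0 0 S := by
  have hm1 : ∀ q : OK, Primary q → ¬ q ∣ -1 := fun q hq hd =>
    hq.1.not_isUnit (isUnit_of_dvd_unit hd isUnit_one.neg)
  have key : ∀ q ∈ S, ∀ x : OK, ¬ q ∣ x →
      Pool.Agent.R384.qs q (-x) + (1 + 0) * Pool.Agent.NH57.BK.tO q = sym q x := by
    intro q hq x hx
    have h1 := pp_of (hS q hq)
    have h2 := (Pool.Agent.H519.Q7.rec_BK.2 q h1).2
    have h3 := Pool.Agent.H519.KW.qs_add h1 (hm1 q (hS q hq)) hx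
    rw [neg_one_mul] at h3
    rw [h3, h2, sym_eq, add_zero, one_mul]
    have h4 : ∀ a b : ZMod 2, a + b + a = b := by decide
    exact h4 _ _
  refine ⟨goodS_of hS h8 hR, ?_, ?_, ?_⟩
  · rw [em_one _ (by decide) h8]
    decide
  · rw [em_one _ (by decide) h8]
    decide
  · intro v e h1 h2
    refine hB v e ?_ ?_
    · intro π hπ
      have h3 := h1 π hπ
      have h4 : Pool.Agent.NH57.BH.gO 0 π = sym π (1 - om) :=
        key π hπ (1 - om) (not_dvd_om' (hS π hπ))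
      rw [h4] at h3
      exact h3
    · have h3 : Pool.Agent.NH57.BH.aa 0 0 = 0 := by decide
      rw [h3, zero_mul, zero_add] at h2
      rw [← h2]
      refine Finset.sum_congr rfl fun ρ hρ => ?_
      have h4 : Pool.Agent.NH57.BH.dO 0 ρ = sym ρ om := key ρ hρ om (not_dvd_om (hS ρ hρ))
      rw [h4]

end Pool.Agent.H519.KW.Gb
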