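import Pool.Graph.R_pool_sql_team_seeded_1e53cb71.Helper35K9.S8.Single
import Pool.Graph.R_pool_sql_team_seeded_1e53cb71.Helper35K9.S8.LinA
import Pool.Graph.R_pool_sql_team_seeded_3dad9d7b.NH57.BL.Gal2

/-!
# Project KW (helper519): the two models of the ring of integers of `ℚ(√-7)`

`OO = ℤ[ω]`, `ω ^ 2 = ω - 2` (project R384, NH57), and the subring `RR = ℤ[α]` of `ℂ`, `α = (1 + √-7) / 2`
(`aR`), `β = 1 - α` (`bR`). The isomorphism `fe` takes `ω` to `β` (so `1 - ω` to `α`, `√-7 = s7` to `- sR`).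
-/

set_option autoImplicit false

open scoped Classical

namespace Pool.Agent.H519.KW

open Pool.Agent.R384 (OO em em_apply)
open Pool.Agent.Y698 (RR aR bR cX cY)

lemma bR_sq : bR ^ 2 = bR - 2 := by
  have h1 := Pool.Agent.Y698.aR_mul_bR
  have h2 : bR = 1 - aR := rfl
  rw [h2] at h1 ⊢
  linear_combination -h1

/-- the homomorphism `x + y ω ↦ x + y β` -/
noncomputable def fi : OO →+* RR := em bR_sq

lemma fi_apply (z : OO) : fi z = z.re + z.im * bR := em_apply bR_sq z

/-- the coordinates of `x + y β` -/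
lemma cXY_fi (z : OO) : cX (fi z) = z.re + z.im ∧ cY (fi z) = -z.im := by
  apply Pool.Agent.Y698.cXY_of
  rw [fi_apply]
  push_cast
  rw [Pool.Agent.Y698.bR_coe]
  unfold Pool.Agent.Y698.bl
  ring

lemma fi_inj : Function.Injective fi := by
  intro z w h
  have h1 := cXY_fi z
  have h2 := cXY_fi w
  rw [h] at h1
  have h3 : z.im = w.im := by
    have := h1.2.symm.trans h2.2
    linarith
  have h4 : z.re = w.re := by
    have := h1.1.symm.trans h2.1
    linarith
  exact QuadraticAlgebra.ext h4 h3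

lemma fi_surj : Function.Surjective fi := by
  intro r
  obtain ⟨x, y, h⟩ := r.2
  refine ⟨⟨x + y, -y⟩, ?_⟩
  rw [fi_apply]
  apply Subtype.ext
  push_cast
  rw [Pool.Agent.Y698.bR_coe]
  unfold Pool.Agent.Y698.bl
  rw [h]
  ring

/-- the isomorphism `x + y ω ↦ x + y β` -/
noncomputable def fe : OO ≃+* RR := RingEquiv.ofBijective fi ⟨fi_inj, fi_surj⟩

lemma fe_apply (z : OO) : fe z = z.re + z.im * bR := fi_apply z

/-- `√-7` -/
noncomputable def sR : RR := 2 * aR - 1

lemma fe_s7 : fe Pool.Agent.R384.s7 = -sR := by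
  rw [fe_apply]
  have h2 : bR = 1 - aR := rfl
  rw [h2]
  unfold sR Pool.Agent.R384.s7
  push_cast
  ring

/-- the set of the primes of `√-7 D`, `D = ∏ S` -/
noncomputable def UU (S : Finset OO) : Finset RR := insert sR (S.image fe)

end Pool.Agent.H519.KW
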