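import Pool.Agent.H519.KW.Iso

/-!
# Project KW: the `L`-functions of the twists over `K = ℚ(√-7)`: definitions
-/

set_option autoImplicit false

open scoped Classical

namespace Pool.Agent.H519.KW

open IsDedekindDomain
open Pool.Agent.R384 (OO om s7)

/-- `(D - 1) / 4` for `D ≡ 1 mod 4` -/
def qt (D : OO) : OO := ⟨(D.re - 1) / 4, D.im / 4⟩

/-- The equation `y² + x y = x³ - ((3 D + 1) / 4) x² - 2 D² x - D³` of `E_D` over `ℤ[ω]`, `D ≡ 1 mod 4`. -/
def WD (D : OO) : WeierstrassCurve OO := ⟨1, -(1 + 3 * qt D), 0, -2 * D ^ 2, -D ^ 3⟩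

/-- The norm of the prime ideal `v`. -/
noncomputable def nv (v : HeightOneSpectrum OO) : ℕ := Nat.card (OO ⧸ v.asIdeal)

/-- The trace of Frobenius: the norm of `v` plus one minus the number of the points of `E_D` modulo `v`
(the affine points and the point at infinity). -/
noncomputable def av (D : OO) (v : HeightOneSpectrum OO) : ℤ := (nv v : ℤ) -
  Nat.card {P : (OO ⧸ v.asIdeal) × (OO ⧸ v.asIdeal) //
    ((WD D).map (Ideal.Quotient.mk v.asIdeal)).toAffine.Equation P.1 P.2}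

/-- The sum `α ^ n + β ^ n` of the powers of the roots of `X ^ 2 - a X + b = (X - α) (X - β)`. -/
def powerSum (a b : ℤ) : ℕ → ℤ
  | 0 => 2
  | 1 => a
  | n + 2 => a * powerSum a b (n + 1) - b * powerSum a b n

/-- The Euler factor at `v`. -/
noncomputable def fac (D : OO) (k : ℕ) (s : ℂ) (v : HeightOneSpectrum OO) : ℂ :=
  if s7 * D ∈ v.asIdeal then 1 else
    (1 - ((powerSum (av D v) (nv v) (2 * k - 1) : ℤ) : ℂ) * (nv v : ℂ) ^ (-s) +
      (nv v : ℂ) ^ (((2 * k - 1 : ℕ) : ℂ) - 2 * s))⁻¹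

/-- The entire function `F` is the `L`-function of weight `2 k` of `E_D`. -/
def IsL (D : OO) (k : ℕ) (F : ℂ → ℂ) : Prop := Differentiable ℂ F ∧
  ∀ s : ℂ, (k : ℝ) + 1 / 2 < s.re → HasProd (fac D k s) (F s)

end Pool.Agent.H519.KW
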