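import Pool.Agent.H519.KW.Tra
import Pool.Graph.R_pool_sql_team_seeded_1e53cb71.Helper35K9.S8.Comb
import Pool.Graph.R_pool_sql_team_seeded_1e53cb71.Helper35K9.S8.Val
import Pool.Graph.R_pool_sql_team_seeded_1e53cb71.Helper35K9.S8.Prim
import Pool.Graph.R_seed8.W287.HK.Basic
import Pool.Graph.R_seed8.W571.HK.Cls
import Pool.Graph.R_seed8.W53.HK.Fp
import Pool.Graph.R_seed8.W366.HK.Fpr
import Pool.Graph.R_seed8.W585.HK.LAT
import Pool.Graph.R_seed8.W692.HK.Ker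
import Pool.Graph.R_seed8.W584.HK.CNT
import Pool.Graph.R_seed8.W856.HK.Dec
import Pool.Graph.R_seed8.W636.HK.Gauss
import Pool.Graph.R_seed8.W348.HK.Pois

/-!
# Project KW: the `L`-functions (task KW-LF)

`lval`: let `U = UU S` be admissible (`Ad`). `V.euler` (`Pool/Graph/R_pool_sql_team_seeded_1e53cb71/Helper35K9/S8/Single.lean`)
with `(a, b) = (2 k - 1, 0)` and `(0, 2 k - 1)` gives entire functions `F₁`, `F₂`, not zero at `k`, with Euler products
over the `v : HeightOneSpectrum RR` with the factors `(1 - t ^ (2 k - 1) (N v) ^ (-s))⁻¹` and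
`(1 - (conj t) ^ (2 k - 1) (N v) ^ (-s))⁻¹`, `t = tw1 1 U v`, for `Re s > k + 1/2`. Let `F = F₁ F₂` (`HasProd.mul`) and
transport the product to `HeightOneSpectrum OO` by `HeightOneSpectrum.equivOfRingEquiv fe` (Mathlib;
`Equiv.hasProd_iff`). At the bad primes `t = 0` (`tv_zero`), the factor is `1` (`2 k - 1 > 0`). At the good primes
`tr_eq` (Tra.lean) gives `t + conj t = av D v`, `t * conj t = nv v`, so
`(1 - t ^ n q ^ (-s)) (1 - conj t ^ n q ^ (-s)) = 1 - (t ^ n + conj t ^ n) q ^ (-s) + q ^ (n - 2 s)` and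
`t ^ n + conj t ^ n = powerSum (av D v) (nv v) n` by induction. The norm `nm` of an ideal of `RR` is
the number of the residue classes (`H_BASIC`; compare `nv`). The condition of `euler` `|a - b| % 4 = 1` is `k` odd.
The hypotheses of `euler`: `S_VAL0`, `S_VALN`: `val0`, `valn` (S8/Val*.lean), `S_LAMB`, `S_MUREC`: `lamb8`, `murec8`
(S8/Comb.lean), `S_PRIM`: S8/Prim.lean, and `H_BASIC`, `H_FP`, `H_CNT`, `H_DEC`, `H_AFE` as in the proof of `result` in
`Pool/Graph/R_pool_sql_team_seeded_1e53cb71/Helper35K9/EveryDegreeSqrtMinusSeven.lean`.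
-/

set_option autoImplicit false

open scoped Classical

namespace Pool.Agent.H519.KW

open IsDedekindDomain
open Pool.Agent.R384 (OO om s7)
open Pool.Agent.NH57.BK (Pp)
open Pool.Agent.Helper35K9.S8 (bb zb cb Mu)
open Pool.Agent.Helper35K9.S8.V (Ad)
open Pool.Agent.Y690.AW (aa)

lemma psum (a b : ℤ) (t u : ℂ) (h1 : (a : ℂ) = t + u) (h2 : t * u = (b : ℂ)) (n : ℕ) :
    ((powerSum a b n : ℤ) : ℂ) = t ^ n + u ^ n := by
  have key : ∀ n : ℕ, ((powerSum a b n : ℤ) : ℂ) = t ^ n + u ^ n ∧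
      ((powerSum a b (n + 1) : ℤ) : ℂ) = t ^ (n + 1) + u ^ (n + 1) := by
    intro n
    induction n with
    | zero =>
      constructor
      · show ((2 : ℤ) : ℂ) = _
        norm_num
      · show ((a : ℤ) : ℂ) = _
        rw [h1, zero_add, pow_one, pow_one]
    | succ n ih =>
      refine ⟨ih.2, ?_⟩
      show ((a * powerSum a b (n + 1) - b * powerSum a b n : ℤ) : ℂ) = _
      push_cast
      rw [ih.1, ih.2, h1, ← h2]
      ring
  exact (key n).1

/-- the transport of the prime ideals -/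
noncomputable def ev : HeightOneSpectrum OO ≃ HeightOneSpectrum Pool.Agent.Y698.RR :=
  HeightOneSpectrum.equivOfRingEquiv fe

lemma ev_ideal (v : HeightOneSpectrum OO) :
    (ev v).asIdeal = v.asIdeal.map (fe : OO →+* Pool.Agent.Y698.RR) := by
  have h1 : (ev v).asIdeal = v.asIdeal.comap (fe.symm : Pool.Agent.Y698.RR →+* OO) := rfl
  rw [h1]
  exact Ideal.comap_symm fe

lemma nm_map (v : HeightOneSpectrum OO) :
    Pool.Agent.W192.HK.nm (v.asIdeal.map (fe : OO →+* Pool.Agent.Y698.RR)) = (nv v : ℝ) := by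
  unfold Pool.Agent.W192.HK.nm nv
  congr 1
  exact (Nat.card_congr (Ideal.quotientEquiv v.asIdeal _ fe rfl).toEquiv).symm

lemma nv_ne (v : HeightOneSpectrum OO) : (nv v : ℂ) ≠ 0 := by
  obtain ⟨b1, b2, b3, -⟩ := Pool.Agent.W287.HK.h_basic Pool.Agent.Y698.RR Pool.Agent.Y698.al
    Pool.Agent.Y698.qr
  have h1 := b3 (ev v).asIdeal (ev v).ne_bot
  rw [ev_ideal, nm_map] at h1
  have h2 : nv v ≠ 0 := by
    intro h
    rw [h] at h1
    norm_num at h1
  exact_mod_cast h2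

lemma fac_eq {S : Finset OO} (hS : ∀ q ∈ S, Pp q) (h8 : (8 : OO) ∣ ∏ q ∈ S, q - 1)
    (hneg : Pool.Agent.Y690.AW.ch (UU S) (-1) = -1) {k : ℕ} (hk : 1 ≤ k) (s : ℂ)
    (v : HeightOneSpectrum OO) :
    fac (∏ q ∈ S, q) k s v =
      (1 - tv S v ^ (2 * k - 1) * (starRingEnd ℂ) (tv S v) ^ 0 * ((nv v : ℝ) : ℂ) ^ (-s))⁻¹ *
      (1 - tv S v ^ 0 * (starRingEnd ℂ) (tv S v) ^ (2 * k - 1) * ((nv v : ℝ) : ℂ) ^ (-s))⁻¹ := by
  have hn : 2 * k - 1 ≠ 0 := by omega
  unfold fac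
  split_ifs with hv
  · rw [tv_zero hS hneg v hv, map_zero, zero_pow hn]
    simp
  · obtain ⟨h1, h2⟩ := tr_eq hS h8 hneg v hv
    have h3 := psum _ (nv v : ℤ) _ _ h1 (by rw [h2]; norm_cast) (2 * k - 1)
    have hq := nv_ne v
    rw [h3, ← mul_inv, Complex.ofReal_natCast]
    congr 1
    have h4 : (nv v : ℂ) ^ (((2 * k - 1 : ℕ) : ℂ) - 2 * s) =
        (tv S v * (starRingEnd ℂ) (tv S v)) ^ (2 * k - 1) * ((nv v : ℂ) ^ (-s) * (nv v : ℂ) ^ (-s)) := by
      rw [h2, ← Complex.cpow_natCast, ← Complex.cpow_add _ _ hq, ← Complex.cpow_add _ _ hq]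
      congr 1
      ring
    rw [h4, mul_pow]
    ring

theorem lval {S : Finset OO} (hS : ∀ q ∈ S, Pp q) (h8 : (8 : OO) ∣ ∏ q ∈ S, q - 1) (hA : Ad (UU S))
    {k : ℕ} (hk : 1 ≤ k) (hc : Odd k ∨ (Mu aa bb zb cb (UU S)).det = 1) :
    ∃ F : ℂ → ℂ, IsL (∏ q ∈ S, q) k F ∧ F k ≠ 0 := by
  have hbasic := Pool.Agent.W287.HK.h_basic
  have hcls := Pool.Agent.W571.HK.h_cls hbasic
  have hfp := Pool.Agent.W53.HK.h_fp hbasic hcls
  have hfpr := Pool.Agent.W366.HK.h_fpr hbasic hcls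
  have hlat := Pool.Agent.W585.HK.h_lat hbasic
  have hker := Pool.Agent.W692.HK.h_ker hbasic hcls hfpr
  have hcnt := Pool.Agent.W584.HK.h_cnt hbasic hcls hfpr hlat hker
  have hdec := Pool.Agent.W856.HK.h_dec hbasic
  have hgauss := Pool.Agent.W636.HK.h_gauss hbasic hfp
  have hpois := Pool.Agent.W348.HK.h_pois hbasic
  have htheta := Pool.Agent.TH936.HK.h_theta hbasic hfp hdec hgauss hpois hcnt
  have hafe := Pool.Agent.TH936.HK.h_afe hbasic hfp hcnt hgauss htheta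
  obtain ⟨F₁, a1, a2, a3⟩ := Pool.Agent.Helper35K9.S8.V.euler Pool.Agent.Helper35K9.S8.val0
    Pool.Agent.Helper35K9.S8.valn Pool.Agent.Helper35K9.S8.lamb8 Pool.Agent.Helper35K9.S8.murec8
    Pool.Agent.Helper35K9.S8.prim hbasic hfp hcnt hdec hafe hA k (2 * k - 1) 0 (by omega) hk
    (hc.imp_left fun h => by
      obtain ⟨j, hj⟩ := h
      subst hj
      omega)
  obtain ⟨F₂, b1, b2, b3⟩ := Pool.Agent.Helper35K9.S8.V.euler Pool.Agent.Helper35K9.S8.val0
    Pool.Agent.Helper35K9.S8.valn Pool.Agent.Helper35K9.S8.lamb8 Pool.Agent.Helper35K9.S8.murec8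
    Pool.Agent.Helper35K9.S8.prim hbasic hfp hcnt hdec hafe hA k 0 (2 * k - 1) (by omega) hk
    (hc.imp_left fun h => by
      obtain ⟨j, hj⟩ := h
      subst hj
      omega)
  refine ⟨fun s => F₁ s * F₂ s, ⟨a1.mul b1, fun s hs => ?_⟩, mul_ne_zero a3 b3⟩
  have h1 := (a2 s hs).mul (b2 s hs)
  rw [← Equiv.hasProd_iff ev] at h1
  convert h1 using 1
  funext v
  rw [fac_eq hS h8 hA.ng hk s v]
  simp only [Function.comp, ev_ideal, nm_map]
  rfl

end Pool.Agent.H519.KW
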