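import Pool.Agent.H519.AW.Hz

/-!
# Project KW: the invariants over multiquadratic fields, elements of `ℤ[ω]`
-/

set_option autoImplicit false
set_option linter.unusedSectionVars false

namespace Pool.Agent.H519.KW

open Pool.Agent.R384 Pool.Agent.Y715.Red Pool.Agent.Y715.Nr Pool.Agent.W237.RK
open Pool.Agent.Y715.Gi (QB KK GK i₀_mem gk_fix)
open Pool.Agent.H519.AW.Hz (dep es_mul)

open scoped Classical

variable {i₀ : QB} (hi : i₀ ^ 2 = i₀ - 2)

/-- seven divides the norm only if `√-7` divides the element -/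
lemma seven_nn {D : OO} (h : ¬ s7 ∣ D) : ¬ (7 : ℤ) ∣ nn D := by
  rintro ⟨c, hc⟩
  apply h
  have h1 : (7 : ℤ) ∣ (D.re + 4 * D.im) ^ 2 := by
    refine ⟨c + D.re * D.im + 2 * D.im ^ 2, ?_⟩
    unfold nn at hc
    linear_combination hc
  obtain ⟨e, he⟩ := Int.Prime.dvd_pow' (by norm_num : Nat.Prime 7) h1
  have he' : D.re + 4 * D.im = 7 * e := he
  refine ⟨⟨e, D.im - 2 * e⟩, ?_⟩
  ext
  · simp only [s7, QuadraticAlgebra.re_mul]
    linarith
  · simp only [s7, QuadraticAlgebra.im_mul]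
    ring

/-- a rational number whose square is `7 m r ^ 2`, `7 ∤ m`, `r ≠ 0` -/
lemma no_sq {m : ℤ} (hm : ¬ (7 : ℤ) ∣ m) (r : ℚ) : r ^ 2 ≠ 7 * (m : ℚ) := by
  intro h
  have hm0 : (m : ℚ) ≠ 0 := by
    intro h0
    apply hm
    have : m = 0 := by exact_mod_cast h0
    rw [this]
    exact dvd_zero _
  have hf : Fact (Nat.Prime 7) := ⟨by norm_num⟩
  have hr : r ≠ 0 := by
    rintro rfl
    rw [zero_pow two_ne_zero] at h
    have := mul_ne_zero (by norm_num : (7 : ℚ) ≠ 0) hm0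
    exact this h.symm
  have h1 := congrArg (padicValRat 7) h
  rw [padicValRat.pow, padicValRat.mul (by norm_num) hm0] at h1
  have h2 : padicValRat 7 (7 : ℚ) = 1 := by
    have := padicValRat.self (p := 7) (by norm_num)
    exact_mod_cast this
  have h3 : padicValRat 7 (m : ℚ) = 0 := by
    rw [padicValRat.of_int, padicValInt.eq_zero_of_not_dvd hm]
    rfl
  rw [h2, h3] at h1
  omega

include hi in
/-- `√-7` times a unit, an element prime to `√-7` and a square is not a square in `K` -/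
lemma not_fixed {x : QB} {D z u : OO} (hz : z ≠ 0) (hD : ¬ s7 ∣ D) (hu : nn u = 1)
    (hx : x ^ 2 = em hi (u * (s7 * D) * z ^ 2)) : ¬ ∀ σ : GK i₀, σ x = x := by
  intro h
  have h1 : x ∈ KK i₀ := by
    have h2 := InfiniteGalois.mem_range_algebraMap_iff_fixed (k := KK i₀) (K := QB) x
    obtain ⟨y, hy⟩ := h2.2 h
    rw [← hy]
    exact y.2
  obtain ⟨a, b, hab⟩ := KK_ex hi h1
  obtain ⟨c, hc⟩ := exists_conj hi
  set m : OO := u * (s7 * D) * z ^ 2 with hm
  have hcx : c x = a + b * (1 - i₀) := by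
    rw [hab, map_add, map_mul, hc, map_ratCast, map_ratCast]
  have h3 : (c x) ^ 2 = em hi (cj m) := by
    rw [← map_pow, hx, em_apply, em_apply, map_add, map_mul, hc, map_intCast, map_intCast]
    unfold cj
    push_cast
    ring
  have h4 : x * c x = ((a ^ 2 + a * b + 2 * b ^ 2 : ℚ) : QB) := by
    rw [hcx, hab]
    push_cast
    linear_combination (-(b : QB) ^ 2) * hi
  have h5 : (((a ^ 2 + a * b + 2 * b ^ 2 : ℚ)) : QB) ^ 2 = ((nn m : ℤ) : QB) := by
    rw [← h4, mul_pow, h3, hx, ← map_mul, mul_cj, map_intCast]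
  have h6 : (a ^ 2 + a * b + 2 * b ^ 2) ^ 2 = ((nn m : ℤ) : ℚ) := by
    have h7 : (((a ^ 2 + a * b + 2 * b ^ 2) ^ 2 : ℚ) : QB) = (((nn m : ℤ) : ℚ) : QB) := by
      rw [Rat.cast_pow, h5, Rat.cast_intCast]
    exact_mod_cast h7
  have h7 : nn m = 7 * nn D * nn z ^ 2 := by
    have e1 : nn s7 = 7 := by decide
    rw [hm, nn_mul, nn_mul, nn_mul, pow_two, nn_mul, hu, e1]
    ring
  have hz' : (nn z : ℚ) ≠ 0 := by
    have := nn_pos hz
    exact_mod_cast this.ne'
  apply no_sq (seven_nn hD) ((a ^ 2 + a * b + 2 * b ^ 2) / nn z)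
  rw [div_pow, h6, h7]
  push_cast
  field_simp

section mq

variable {n : ℕ} {s : Fin n → QB}

/-- the root of `u √-7 N` is not in the multiquadratic field -/
theorem exists_move {E : Fin n → OO} (hE0 : ∀ i, E i ≠ 0) (hE : ∀ i, s i ^ 2 = em hi (E i)) {x : QB}
    {N u : OO} (hu : nn u = 1) (hx : x ^ 2 = em hi (u * (s7 * N)))
    (hg : ∀ T : Finset (Fin n), ∃ D z : OO, z ≠ 0 ∧ ¬ s7 ∣ D ∧ N * ∏ i ∈ T, E i = D * z ^ 2) :
    ∃ σ ∈ fixs s Finset.univ, (σ : GK i₀) x = -x := by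
  have hs0 : ∀ i, s i ≠ 0 := by
    intro i h
    have h1 := hE i
    rw [h, zero_pow two_ne_zero] at h1
    exact em_ne hi (hE0 i) h1.symm
  have hs : ∀ (i) (σ : GK i₀), σ (s i) = s i ∨ σ (s i) = -s i := fun i σ => rt_or hi (hE i) σ
  have key : ∀ (T : Finset (Fin n)), ¬ ∀ σ : GK i₀, σ (x * ∏ i ∈ T, s i) = x * ∏ i ∈ T, s i := by
    intro T
    obtain ⟨D, z, hz, hD, he⟩ := hg T
    refine not_fixed hi hz hD hu ?_
    rw [mul_pow, hx, ← Finset.prod_pow, Finset.prod_congr rfl fun i _ => hE i, ← map_prod, ← map_mul]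
    congr 1
    linear_combination (u * s7) * he
  have hx0 : x ≠ 0 := by
    intro h0
    apply key ∅
    intro σ
    rw [h0, zero_mul, map_zero]
  have hx' : ∀ σ : GK i₀, σ x = x ∨ σ x = -x := fun σ => rt_or hi hx σ
  by_contra hcon
  push Not at hcon
  obtain ⟨T, -, hT⟩ := dep hs0 hs Finset.univ (es hx0 hx') (fun σ hσ =>
    (es_one hx0 hx').2 ((hx' σ).resolve_right (hcon σ hσ)))
  apply key T
  intro σ
  have h1 := hT σ
  rw [map_mul, map_prod, es_mul hx0 hx']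
  have e1 : ∏ i ∈ T, σ (s i) = (((∏ i ∈ T, es (hs0 i) (hs i) σ : ℤˣ) : ℤ) : QB) *
      ∏ i ∈ T, s i := by
    push_cast
    rw [← Finset.prod_mul_distrib]
    exact Finset.prod_congr rfl fun i _ => es_mul (hs0 i) (hs i) σ
  rw [e1]
  have e2 : (((es hx0 hx' σ : ℤˣ) : ℤ) : QB) *
      (((∏ i ∈ T, es (hs0 i) (hs i) σ : ℤˣ) : ℤ) : QB) = 1 := by
    have h2 := congrArg (fun u : ℤˣ => (((u : ℤˣ) : ℤ) : QB)) h1
    push_cast at h2 ⊢
    exact h2
  linear_combination (x * ∏ i ∈ T, s i) * e2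

end mq

end Pool.Agent.H519.KW
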