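import Pool.Agent.H519.KW.Lf
import Pool.Agent.H519.KW.Sym
import Pool.Graph.R_seed8.R426.QD.Tr

/-!
# Project KW: the traces of Frobenius of the twists over `K`

`tr_eq`: let `v = (q)` be a prime ideal of `OO` prime to `√-7 D`, `D = ∏ S`, `S` primary primes, `8 ∣ D - 1`. Then
`a_v(E_D) = t + conj t` with `t = ψ(v) = tw1 1 (UU S) (fe v)`, which is
`ch (UU S) (fe q) * fe q` by `tw1_gen` (`Pool/Graph/R_pool_sql_team_seeded_1e53cb71/Helper35K9/S8/Single.lean`), and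
`t * conj t = N v`. It follows from `Pool.Agent.R426.QD.trace_D`
(`Pool/Graph/R_seed8/R426/QD/Tr.lean`: the trace of Frobenius of `EX k (φ J)`, `D = 1 + 4 J`, over a finite field
`k = RR / (ϖ)`) with `k = OO / v` and the homomorphism `RR → OO / v` given by the inverse of `fe`, with the family
`fe q`, `q ∈ S`: `sy` is the residue symbol as a complex number (compare it with `Pool.Agent.Y690.NV.qs`),
`e7 ϖ` is `(ϖ / √-7)`; `Pn`, `tp` are in `R426/QD/Pn.lean`: `Pn ϖ` means that `ϖ` is a prime, odd, and `1` modulo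
`α ^ 2`. As `fe` takes `ω` to `β`, use there instead of `fe` the other isomorphism `ge : OO ≃+* RR`, `ω ↦ α`
(`fe = conj ∘ ge`; `ge s7 = √-7`): the primary primes are `1` modulo `ω ^ 2`, so `Pn (ge q)`; the symbols
`(q / π)` are the same in `OO` and in the two copies, `ge q + cj (ge q) = fe q + conj (fe q)` in `ℂ`; `∑ tp = 0`
because `D = 1` modulo `4`.
-/

set_option autoImplicit false

open scoped Classical

namespace Pool.Agent.H519.KW

open IsDedekindDomain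
open Pool.Agent.R384 (OO om s7 em)
open Pool.Agent.Y698 (RR aR bR)
open Pool.Agent.NH57.BK (Pp)
open Pool.Agent.Helper35K9.S8 (tw1)

open Pool.Agent.Y698 (cX cY cj cj_cj cj_coe nR mul_cj r7 fR e7 AP EX)
open Pool.Agent.Y698.SG (sy)
open Pool.Agent.W192.HK (sp)
open Pool.Agent.R426.QD (Pn tp)
open Pool.Agent.Y690.AW (ch)

/-- the value of the Hecke character at `v` -/
noncomputable def tv (S : Finset OO) (v : HeightOneSpectrum OO) : ℂ :=
  Pool.Agent.Helper35K9.S8.tw1 1 (UU S) (v.asIdeal.map (fe : OO →+* RR))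

/-! ### the other isomorphism -/

/-- `x + y ω ↦ x + y α` -/
noncomputable def gx (z : OO) : RR := cj (fe z)

lemma gx_coord (z : OO) : gx z = z.re + z.im * aR := by
  unfold gx
  rw [fe_apply, map_add, map_mul, map_intCast, map_intCast]
  have : cj bR = aR := by
    change cj (1 - aR) = aR
    rw [map_sub, map_one, Pool.Agent.R426.QC.cj_aR]
    ring
  rw [this]

lemma gx_mul (x y : OO) : gx (x * y) = gx x * gx y := by
  unfold gx
  rw [map_mul, map_mul]

lemma gx_prod (S : Finset OO) : gx (∏ q ∈ S, q) = ∏ q ∈ S, gx q := by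
  unfold gx
  rw [map_prod, map_prod]

lemma gx_prime {q : OO} (h : Prime q) : Prime (gx q) := by
  have h1 : Prime (fe q) := (MulEquiv.prime_iff (fe : OO ≃* RR)).mpr h
  have e : gx q = cj (fe q) := rfl
  refine ⟨?_, ?_, ?_⟩
  · intro h0
    apply h1.ne_zero
    rw [e] at h0
    rw [← cj_cj (fe q), h0, map_zero]
  · intro hu
    apply h1.not_isUnit
    have := hu.map (cj : RR →+* RR)
    rwa [e, cj_cj] at this
  · intro a b hab
    rw [e] at hab ⊢
    have h2 : fe q ∣ cj a * cj b := by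
      rw [← map_mul, ← Pool.Agent.R426.QC.cj_dvd, cj_cj]
      exact hab
    rcases h1.dvd_or_dvd h2 with h3 | h3
    · left
      rwa [← Pool.Agent.R426.QC.cj_dvd, cj_cj] at h3
    · right
      rwa [← Pool.Agent.R426.QC.cj_dvd, cj_cj] at h3

lemma fe_dvdT {x y : OO} : fe x ∣ fe y ↔ x ∣ y := map_dvd_iff fe

lemma gx_dvd {x y : OO} : gx x ∣ gx y ↔ x ∣ y := by
  unfold gx
  rw [Pool.Agent.R426.QC.cj_dvd, fe_dvdT]

lemma om_mul : (2 : OO) = om * (1 - om) := by
  have h1 : om ^ 2 = om - 2 := by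
    have e2 : (2 : OO) = ⟨2, 0⟩ := rfl
    rw [e2, pow_two]
    ext
    · simp [om]
    · simp [om]
  linear_combination h1

/-- a prime which divides an element of norm two is associated to it -/
lemma dvd_two {q t : OO} (hq : Prime q) (ht : Pool.Agent.R384.nn t = 2) (h : q ∣ t) : t ∣ q := by
  obtain ⟨c, hc⟩ := h
  have h1 : Pool.Agent.R384.nn q * Pool.Agent.R384.nn c = 2 := by
    rw [← Pool.Agent.R384.nn_mul, ← hc, ht]
  have hu : ∀ z : OO, Pool.Agent.R384.nn z = 1 → IsUnit z := fun z hz => by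
    have := Pool.Agent.R384.mul_cj z
    rw [hz, Int.cast_one] at this
    exact IsUnit.of_mul_eq_one _ this
  have h2 : Pool.Agent.R384.nn q ≠ 1 := fun h => hq.not_isUnit (hu q h)
  have h3 : 0 ≤ Pool.Agent.R384.nn q := Pool.Agent.R384.nn_nonneg q
  have h4 : 0 ≤ Pool.Agent.R384.nn c := Pool.Agent.R384.nn_nonneg c
  have h5 : Pool.Agent.R384.nn q ∣ 2 := ⟨_, h1.symm⟩
  have h6 : Pool.Agent.R384.nn q ≤ 2 := Int.le_of_dvd (by norm_num) h5
  have h7 : Pool.Agent.R384.nn q = 2 := by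
    rcases Nat.lt_or_ge 0 0 with h | h
    · omega
    · interval_cases h8 : Pool.Agent.R384.nn q <;> omega
  have h8 : Pool.Agent.R384.nn c = 1 := by
    rw [h7] at h1
    omega
  obtain ⟨u, hu'⟩ := hu c h8
  rw [← hu'] at hc
  exact ⟨(u⁻¹ : OOˣ), by rw [hc, mul_assoc, Units.mul_inv, mul_one]⟩

lemma pp_two {q : OO} (h : Pp q) : ¬ q ∣ 2 := by
  intro h2
  rw [om_mul] at h2
  rcases h.prime.dvd_or_dvd h2 with h3 | h3
  · have h4 := dvd_two h.prime (by unfold Pool.Agent.R384.nn om; norm_num) h3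
    obtain ⟨d, hd⟩ := h4
    have h5 := h.one
    have h6 : (em Pool.Agent.NH57.BK.h2) om = 2 := by
      rw [Pool.Agent.R384.em_apply]
      simp [om]
    rw [hd, map_mul, h6] at h5
    revert h5
    generalize (em Pool.Agent.NH57.BK.h2) d = x
    revert x
    decide
  · exact h.odd (dvd_two h.prime (by
      have : (1 - om : OO) = ⟨1, -1⟩ := rfl
      rw [this]
      unfold Pool.Agent.R384.nn
      norm_num) h3)

/-! ### the symbols -/

lemma qs_sy (p x : RR) : ((Pool.Agent.Y690.NV.qs p x : ℤ) : ℂ) = sy p x := by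
  unfold Pool.Agent.Y690.NV.qs sy
  have h2 : IsSquare (Ideal.Quotient.mk (sp p) x) ↔ ∃ β : RR, β * β - x ∈ sp p := by
    constructor
    · rintro ⟨b, hb⟩
      obtain ⟨β, rfl⟩ := Ideal.Quotient.mk_surjective b
      refine ⟨β, ?_⟩
      rw [← Ideal.Quotient.mk_eq_mk_iff_sub_mem, hb, map_mul]
    · rintro ⟨β, hβ⟩
      refine ⟨Ideal.Quotient.mk _ β, ?_⟩
      rw [← Ideal.Quotient.mk_eq_mk_iff_sub_mem] at hβ
      rw [← hβ, map_mul]
  by_cases h1 : x ∈ sp p
  · rw [if_pos h1, if_pos h1, Int.cast_zero]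
  · rw [if_neg h1, if_neg h1]
    by_cases h3 : ∃ β : RR, β * β - x ∈ sp p
    · rw [if_pos h3, if_pos (h2.mpr h3), Int.cast_one]
    · rw [if_neg h3, if_neg (fun h => h3 (h2.mp h)), Int.cast_neg, Int.cast_one]

lemma sR_eqT : sR = fR := rfl

lemma qs_e7 (x : RR) : ((Pool.Agent.Y690.NV.qs sR x : ℤ) : ℂ) = e7 x := by
  rw [sR_eqT]
  unfold Pool.Agent.Y690.NV.qs e7
  rw [quadraticChar_apply]
  unfold quadraticCharFun
  have h2 : IsSquare (r7 x) ↔ ∃ β : RR, β * β - x ∈ sp fR := by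
    constructor
    · rintro ⟨b, hb⟩
      obtain ⟨n, hn⟩ := ZMod.intCast_surjective b
      refine ⟨(n : RR), ?_⟩
      rw [← Pool.Agent.Y698.r7_eq_zero, map_sub, map_mul, map_intCast, hn, hb, sub_self]
    · rintro ⟨β, hβ⟩
      rw [← Pool.Agent.Y698.r7_eq_zero, map_sub, map_mul, sub_eq_zero] at hβ
      exact ⟨r7 β, hβ.symm⟩
  by_cases h1 : x ∈ sp fR
  · rw [if_pos h1, if_pos (Pool.Agent.Y698.r7_eq_zero.mpr h1)]
  · rw [if_neg h1, if_neg (fun h => h1 (Pool.Agent.Y698.r7_eq_zero.mp h))]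
    by_cases h3 : ∃ β : RR, β * β - x ∈ sp fR
    · rw [if_pos h3, if_pos (h2.mpr h3)]
    · rw [if_neg h3, if_neg (fun h => h3 (h2.mp h))]

lemma ch_UU {S : Finset OO} (hS : ∀ q ∈ S, Pp q) (x : OO) :
    ((ch (UU S) (fe x) : ℤ) : ℂ) = (∏ q ∈ S, sy (gx q) (gx x)) * e7 (gx x) := by
  unfold ch UU
  rw [Finset.prod_insert (sR_notMem hS), Finset.prod_image (fun a _ b _ h => fe.injective h)]
  push_cast
  rw [qs_e7, mul_comm]
  congr 1
  · refine Finset.prod_congr rfl fun q _ => ?_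
    rw [qs_sy]
    exact (Pool.Agent.Y279.SG.sy_cj (fe q) (fe x)).symm
  · exact (Pool.Agent.Y698.e7_cj (fe x)).symm

/-! ### the primary primes -/

lemma r4_gx (x : OO) : Pool.Agent.R426.QD.r4 (gx x) = em Pool.Agent.NH57.BK.h2 x := by
  rw [gx_coord, map_add, map_mul, map_intCast, map_intCast, Pool.Agent.R426.QD.r4_a,
    Pool.Agent.R384.em_apply]

lemma pn_gx {q : OO} (h : Pp q) : Pn (gx q) := by
  refine ⟨gx_prime h.prime, ?_, ?_⟩
  · intro h1
    apply pp_two h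
    rw [← gx_dvd]
    have : gx 2 = 2 := by unfold gx; rw [map_ofNat, map_ofNat]
    rw [this]
    exact h1
  · rw [r4_gx, h.one]

lemma h3 : (3 : ZMod 4) ^ 2 = 3 - 2 := by decide

/-- reduction modulo the square of the other prime -/
noncomputable def r5 : RR →+* ZMod 4 := Pool.Agent.Y698.ev (3 : ZMod 4) (by decide)

lemma r5_apply (x : RR) : r5 x = ((cX x + 3 * cY x : ℤ) : ZMod 4) := by
  have h : r5 x = (cX x : ZMod 4) + (cY x : ZMod 4) * 3 := rfl
  rw [h]
  push_cast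
  ring

lemma r5_tp {ϖ : RR} (h : Pn ϖ) : (tp ϖ = 0 ∧ r5 ϖ = 1) ∨ (tp ϖ = 1 ∧ r5 ϖ = -1) := by
  rcases h.cases with h1 | ⟨p, A, B, h1, h2⟩
  · left
    refine ⟨Pool.Agent.R426.QD.tp_pm h1, ?_⟩
    obtain ⟨u, hu⟩ := h1.m4
    rw [hu, map_add, map_mul, map_one, map_ofNat]
    have : (4 : ZMod 4) = 0 := by decide
    rw [this, zero_mul, add_zero]
  · right
    refine ⟨h1.tp, ?_⟩
    rw [r5_apply, h1.hX, h1.hY]
    have h3 : ((A - B + 3 * (2 * B) - (-1) : ℤ) : ZMod 4) = 0 := by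
      rw [ZMod.intCast_zmod_eq_zero_iff_dvd]
      have := h1.hB
      have := h1.hA
      omega
    rw [Int.cast_sub, sub_eq_zero] at h3
    rw [h3]
    norm_num

lemma r5_prod {S : Finset OO} (hS : ∀ q ∈ S, Pp q) :
    (∑ q ∈ S, tp (gx q) = 0 ∧ r5 (∏ q ∈ S, gx q) = 1) ∨
      (∑ q ∈ S, tp (gx q) = 1 ∧ r5 (∏ q ∈ S, gx q) = -1) := by
  classical
  induction S using Finset.induction_on with
  | empty => left; simp
  | insert q T hq ih =>
    have ih' := ih fun p hp => hS p (Finset.mem_insert_of_mem hp)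
    rw [Finset.sum_insert hq, Finset.prod_insert hq, map_mul]
    rcases r5_tp (pn_gx (hS q (Finset.mem_insert_self _ _))) with ⟨a1, a2⟩ | ⟨a1, a2⟩ <;>
      rcases ih' with ⟨b1, b2⟩ | ⟨b1, b2⟩ <;> rw [a1, a2, b1, b2] <;> decide

lemma tp_sum {S : Finset OO} (hS : ∀ q ∈ S, Pp q) (h4 : (4 : OO) ∣ ∏ q ∈ S, q - 1) :
    ∑ q ∈ S, tp (gx q) = 0 := by
  rcases r5_prod hS with h | h
  · exact h.1
  · exfalso
    obtain ⟨c, hc⟩ := h4
    have h1 : ∏ q ∈ S, gx q = 1 + 4 * gx c := by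
      rw [← gx_prod]
      have : ∏ q ∈ S, q = 1 + 4 * c := by linear_combination hc
      rw [this]
      unfold gx
      rw [map_add, map_mul, map_one, map_ofNat, map_add, map_mul, map_one, map_ofNat]
    have h2 := h.2
    rw [h1, map_add, map_mul, map_one, map_ofNat] at h2
    have h4 : (4 : ZMod 4) = 0 := by decide
    rw [h4, zero_mul, add_zero] at h2
    revert h2
    decide

/-! ### the residue field -/

lemma exists_gen (v : HeightOneSpectrum OO) : ∃ ϖ : OO, v.asIdeal = Ideal.span {ϖ} ∧ Prime ϖ := by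
  obtain ⟨ϖ, h⟩ := (IsPrincipalIdealRing.principal v.asIdeal).principal
  have h' : v.asIdeal = Ideal.span {ϖ} := h
  refine ⟨ϖ, h', ?_⟩
  have h0 : ϖ ≠ 0 := by
    rintro rfl
    apply v.ne_bot
    rw [h', Ideal.span_singleton_eq_bot]
  rw [← Ideal.span_singleton_prime h0, ← h']
  exact v.isPrime

lemma map_span (ϖ : OO) : (Ideal.span {ϖ}).map (fe : OO →+* RR) = sp (fe ϖ) := by
  rw [Ideal.map_span, Set.image_singleton]
  rfl

lemma nv_eq {v : HeightOneSpectrum OO} {ϖ : OO} (h : v.asIdeal = Ideal.span {ϖ}) :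
    ((nv v : ℕ) : ℤ) = nR (fe ϖ) := by
  have e1 : nv v = Nat.card (RR ⧸ sp (fe ϖ)) := by
    unfold nv
    refine Nat.card_congr (Ideal.quotientEquiv v.asIdeal (sp (fe ϖ)) fe ?_).toEquiv
    rw [h, ← map_span]
  obtain ⟨-, -, -, -, b5, -⟩ := Pool.Agent.W287.HK.h_basic RR Pool.Agent.Y698.al Pool.Agent.Y698.qr
  have h5 := b5 (fe ϖ)
  rw [Pool.Agent.Y698.normSq_coe] at h5
  unfold Pool.Agent.W192.HK.nm at h5
  rw [e1]
  exact_mod_cast h5

lemma nR_cj (x : RR) : nR (cj x) = nR x := by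
  have h1 : ((nR (cj x) : ℤ) : RR) = ((nR x : ℤ) : RR) := by
    rw [← mul_cj, ← mul_cj, cj_cj, mul_comm]
  exact_mod_cast h1

/-- the homomorphism to the residue field -/
noncomputable def ph (v : HeightOneSpectrum OO) : RR →+* OO ⧸ v.asIdeal :=
  (Ideal.Quotient.mk v.asIdeal).comp ((fe.symm : RR →+* OO).comp cj)

lemma ph_gx (v : HeightOneSpectrum OO) (x : OO) : ph v (gx x) = Ideal.Quotient.mk v.asIdeal x := by
  change Ideal.Quotient.mk v.asIdeal (fe.symm (cj (cj (fe x)))) = _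
  rw [cj_cj, RingEquiv.symm_apply_apply]

lemma gx_surj (x : RR) : ∃ z : OO, gx z = x := by
  refine ⟨fe.symm (cj x), ?_⟩
  unfold gx
  rw [RingEquiv.apply_symm_apply, cj_cj]

lemma fe_coe_gx (x : OO) : ((gx x : RR) : ℂ) + ((cj (gx x) : RR) : ℂ) =
    (fe x : ℂ) + (starRingEnd ℂ) (fe x : ℂ) := by
  unfold gx
  rw [cj_cj, cj_coe, add_comm]

lemma ad_UU {S : Finset OO} (hS : ∀ q ∈ S, Pp q) :
    ∀ p ∈ UU S, Pool.Agent.Helper35K9.S8.QC1 p := by
  intro p hp
  unfold UU at hp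
  rw [Finset.mem_insert, Finset.mem_image] at hp
  rcases hp with rfl | ⟨q, hq, rfl⟩
  · exact Pool.Agent.Helper35K9.S8.V.mkQ1 Pool.Agent.W287.HK.h_basic prime_sR o1_sR
  · exact Pool.Agent.Helper35K9.S8.V.mkQ1 Pool.Agent.W287.HK.h_basic
      (fe_prime (hS q hq).prime) (o1_fe (hS q hq))

lemma tv_eq {S : Finset OO} (hS : ∀ q ∈ S, Pp q) (hneg : ch (UU S) (-1) = -1)
    {v : HeightOneSpectrum OO} {ϖ : OO} (h : v.asIdeal = Ideal.span {ϖ}) :
    tv S v = ((ch (UU S) (fe ϖ) : ℤ) : ℂ) * (fe ϖ : ℂ) := by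
  unfold tv
  rw [h, map_span, Pool.Agent.Helper35K9.S8.V.tw1_gen odd_one (ad_UU hS) hneg, pow_one]

lemma ch_sq {S : Finset OO} (hS : ∀ q ∈ S, Pp q) {ϖ : OO} (hϖ : Prime ϖ)
    (h : ¬ ϖ ∣ s7 * ∏ q ∈ S, q) : ch (UU S) (fe ϖ) ^ 2 = 1 := by
  have h1 : ∀ p ∈ UU S, Pool.Agent.Y690.NV.qs p (fe ϖ) ^ 2 = 1 := by
    intro p hp
    have h2 := ad_UU hS p hp
    have h3 : fe ϖ ∉ sp p := by
      rw [Ideal.mem_span_singleton]
      intro h4
      unfold UU at hp
      rw [Finset.mem_insert, Finset.mem_image] at hp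
      apply h
      have key : ∀ t : OO, Prime t → t ∣ ϖ → ϖ ∣ t := fun t ht hd =>
        (ht.associated_of_dvd hϖ hd).symm.dvd
      rcases hp with rfl | ⟨q, hq, rfl⟩
      · have h5 : s7 ∣ ϖ := by
          rw [← fe_dvdT, fe_s7, neg_dvd]
          exact h4
        have h6 : Prime s7 := by
          have : Prime (fe s7) := by rw [fe_s7]; exact prime_sR.neg
          exact (MulEquiv.prime_iff (fe : OO ≃* RR)).mp this
        exact (key s7 h6 h5).mul_right _
      · have h5 : q ∣ ϖ := fe_dvdT.mp h4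
        exact ((key q (hS q hq).prime h5).trans (Finset.dvd_prod_of_mem _ hq)).mul_left _
    rcases h2.pm _ h3 with h4 | h4 <;> rw [h4] <;> norm_num
  unfold ch
  rw [← Finset.prod_pow]
  exact Finset.prod_eq_one h1

theorem tr_eq {S : Finset OO} (hS : ∀ q ∈ S, Pp q) (h8 : (8 : OO) ∣ ∏ q ∈ S, q - 1)
    (hneg : Pool.Agent.Y690.AW.ch (UU S) (-1) = -1)
    (v : HeightOneSpectrum OO) (hv : ¬ s7 * ∏ q ∈ S, q ∈ v.asIdeal) :
    ((av (∏ q ∈ S, q) v : ℤ) : ℂ) = tv S v + (starRingEnd ℂ) (tv S v) ∧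
      tv S v * (starRingEnd ℂ) (tv S v) = (nv v : ℂ) := by
  obtain ⟨ϖ, hϖ, hpr⟩ := exists_gen v
  have hnd : ¬ ϖ ∣ s7 * ∏ q ∈ S, q := by
    rwa [hϖ, Ideal.mem_span_singleton] at hv
  have hfin : Finite (OO ⧸ v.asIdeal) := by
    have h1 := nv_eq hϖ
    have h2 : 0 < nR (fe ϖ) := Pool.Agent.Y698.nR_pos (fe_prime hpr).ne_zero
    have h3 : nv v ≠ 0 := by
      intro h
      rw [h] at h1
      simp at h1
      omega
    exact Nat.finite_of_card_ne_zero h3
  have h4 : (4 : OO) ∣ ∏ q ∈ S, q - 1 := by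
    refine dvd_trans ⟨2, ?_⟩ h8
    norm_num
  have hD : ∏ q ∈ S, q = 1 + 4 * qt (∏ q ∈ S, q) := by
    obtain ⟨c, hc⟩ := h4
    have e1 : ∏ q ∈ S, q = 1 + 4 * c := by linear_combination hc
    have e4 : (4 : OO) = ⟨4, 0⟩ := rfl
    have e5 : (1 : OO) = ⟨1, 0⟩ := rfl
    have e2 : qt (∏ q ∈ S, q) = c := by
      rw [e1]
      unfold qt
      ext
      · simp [e4, e5, QuadraticAlgebra.re_mul, QuadraticAlgebra.re_add]
      · simp [e4, e5, QuadraticAlgebra.im_mul, QuadraticAlgebra.im_add]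
    rw [e2]
    exact e1
  have htv := tv_eq hS hneg hϖ
  refine ⟨?_, ?_⟩
  · have hmax : v.asIdeal.IsMaximal := v.isMaximal
    let _ : Field (OO ⧸ v.asIdeal) := Ideal.Quotient.field v.asIdeal
    have h7 : ¬ gx ϖ ∣ 7 := by
      have e : (7 : RR) = gx 7 := by unfold gx; rw [map_ofNat, map_ofNat]
      rw [e, gx_dvd]
      intro h
      have e2 : (7 : OO) = -(s7 * s7) := by
        have e7 : (7 : OO) = ⟨7, 0⟩ := rfl
        rw [e7]
        ext
        · simp [s7]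
        · simp [s7]
      rw [e2, dvd_neg] at h
      apply hnd
      rcases hpr.dvd_or_dvd h with h | h <;> exact h.mul_right _
    have hk : (Nat.card (OO ⧸ v.asIdeal) : ℤ) = nR (gx ϖ) := by
      unfold gx
      rw [nR_cj, ← nv_eq hϖ]
      rfl
    have hs : Function.Surjective (ph v) := by
      intro y
      obtain ⟨z, rfl⟩ := Ideal.Quotient.mk_surjective y
      exact ⟨gx z, ph_gx v z⟩
    have hφ : ∀ x, ph v x = 0 ↔ x ∈ sp (gx ϖ) := by
      intro x
      obtain ⟨z, rfl⟩ := gx_surj x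
      rw [ph_gx, Ideal.Quotient.eq_zero_iff_mem, hϖ, Ideal.mem_span_singleton,
        Ideal.mem_span_singleton, gx_dvd]
    have hne : ∀ i ∈ S, gx i ∉ sp (gx ϖ) := by
      intro q hq h
      rw [Ideal.mem_span_singleton, gx_dvd] at h
      exact hnd ((h.trans (Finset.dvd_prod_of_mem _ hq)).mul_left _)
    have hJ : ∏ i ∈ S, gx i = 1 + 4 * gx (qt (∏ q ∈ S, q)) := by
      rw [← gx_prod]
      conv_lhs => rw [hD]
      unfold gx
      rw [map_add, map_mul, map_one, map_ofNat, map_add, map_mul, map_one, map_ofNat]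
    have key := Pool.Agent.R426.QD.trace_D (OO ⧸ v.asIdeal) (gx_prime hpr) h7 hk (ph v) hs hφ
      (fun i hi => pn_gx (hS i hi)) (tp_sum hS h4) hne hJ
    rw [ph_gx] at key
    have hW : (WD (∏ q ∈ S, q)).map (Ideal.Quotient.mk v.asIdeal) =
        EX (OO ⧸ v.asIdeal) (Ideal.Quotient.mk v.asIdeal (qt (∏ q ∈ S, q))) := by
      rw [← Pool.Agent.Y698.EX_map]
      congr 1
      unfold WD EX
      rw [← hD]
    have hav : av (∏ q ∈ S, q) v = (Nat.card (OO ⧸ v.asIdeal) : ℤ) -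
        Nat.card (AP (EX (OO ⧸ v.asIdeal) (Ideal.Quotient.mk v.asIdeal (qt (∏ q ∈ S, q))))) := by
      unfold av nv AP
      rw [hW]
    rw [hav, key, htv, map_mul, map_intCast, ← mul_add, ← fe_coe_gx, ch_UU hS]
    ring
  · rw [htv, map_mul, map_intCast]
    have h1 := ch_sq hS hpr hnd
    have h2 : (fe ϖ : ℂ) * (starRingEnd ℂ) (fe ϖ : ℂ) = (nv v : ℂ) := by
      rw [Complex.mul_conj, Pool.Agent.Y698.normSq_coe, ← nv_eq hϖ]
      push_cast
      rfl
    have h3 : ((ch (UU S) (fe ϖ) : ℤ) : ℂ) ^ 2 = 1 := by exact_mod_cast h1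
    linear_combination (fe ϖ : ℂ) * (starRingEnd ℂ) (fe ϖ : ℂ) * h3 + h2

/-- at the bad primes the character is zero -/
theorem tv_zero {S : Finset OO} (hS : ∀ q ∈ S, Pp q) (hneg : Pool.Agent.Y690.AW.ch (UU S) (-1) = -1)
    (v : HeightOneSpectrum OO) (hv : s7 * ∏ q ∈ S, q ∈ v.asIdeal) : tv S v = 0 := by
  obtain ⟨ϖ, hϖ, hpr⟩ := exists_gen v
  rw [tv_eq hS hneg hϖ]
  rw [hϖ, Ideal.mem_span_singleton] at hv
  have hQ := ad_UU hS
  have key : ch (UU S) (fe ϖ) = 0 := by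
    unfold ch
    rcases hpr.dvd_or_dvd hv with h1 | h1
    · refine Finset.prod_eq_zero (i := sR) (Finset.mem_insert_self _ _) ?_
      rw [(hQ sR (Finset.mem_insert_self _ _)).zero, Ideal.mem_span_singleton]
      have h2 : fe ϖ ∣ sR := by
        have := fe_dvdT.mpr h1
        rwa [fe_s7, dvd_neg] at this
      exact ((fe_prime hpr).associated_of_dvd prime_sR h2).symm.dvd
    · obtain ⟨q, hq, h2⟩ := (hpr.dvd_finsetProd_iff _).mp h1
      have hm : fe q ∈ UU S := Finset.mem_insert_of_mem (Finset.mem_image_of_mem _ hq)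
      refine Finset.prod_eq_zero (i := fe q) hm ?_
      rw [(hQ _ hm).zero, Ideal.mem_span_singleton]
      exact ((fe_prime hpr).associated_of_dvd (fe_prime (hS q hq).prime)
        (fe_dvdT.mpr h2)).symm.dvd
  rw [key, Int.cast_zero, zero_mul]

end Pool.Agent.H519.KW
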